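import Mathlib

-- merged part: Pool.Agent.Work.MP_97f157_lc_C.Defs
section
set_option autoImplicit false

open Polynomial Finset

namespace Pool.Agent.Work.MP_97f157_lc_C

/-- Some nonzero sum of `k` products of `m` real `t`-sparse polynomials has at least `n`
distinct real roots. -/
def HasRoots (k m t n : ℕ) : Prop :=
  ∃ F : Fin k → Fin m → ℝ[X], (∀ i j, (F i j).support.card ≤ t) ∧ (∑ i, ∏ j, F i j) ≠ 0 ∧
    n ≤ (∑ i, ∏ j, F i j).roots.toFinset.card

/-- The abstract design: epochs `P` (larger `ex` is earlier), factors `J`, interpolation nodes `Θ`,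
digit positions `Z`, channels `E`, broadcast forms `Φ`. -/
structure Design (P J Θ Z E Φ : Type) [Fintype Θ] [Fintype Φ] where
  ex : P → ℕ
  ex_inj : Function.Injective ex
  e : Z → ℕ
  e_inj : Function.Injective e
  home : P → J
  X : J → Finset P
  home_mem : ∀ p, p ∈ X (home p)
  ch : P → Θ → E
  ch_inj : ∀ p, Function.Injective (ch p)
  ab : E → J
  Need : P → Θ → P → Prop
  clos1 : ∀ j p q θ θ', p ∈ X j → ex p < ex q → ch q θ' = ch p θ →
    ∀ p', Need q θ' p' → p' ∈ X j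
  clos2 : ∀ q θ' p', Need q θ' p' → p' ∈ X (ab (ch q θ'))
  U : Θ → Z → ℂ
  cf : Φ → P → ℂ
  U_alg : ∀ θ z, IsAlgebraic ℚ (U θ z)
  cf_alg : ∀ f p, IsAlgebraic ℚ (cf f p)
  top : Φ → P
  top_le : ∀ f p, cf f p ≠ 0 → ex (top f) ≤ ex p
  interp : ∀ W : ℝ, ∃ (Λ : Θ → ℂ) (Y : Θ → P → ℂ),
    (∀ z p, ∑ θ, Λ θ * U θ z * Y θ p = (W : ℂ) ^ e z * (W : ℂ) ^ ex p) ∧
    ∀ q θ, ∃ κ : Φ → ℂ, (∀ f, κ f ≠ 0 → ex q < ex (top f)) ∧
      ∀ p, ex q < ex p → Y θ p ≠ ∑ f, κ f * cf f p → Need q θ p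

/-- The number of small subsets of the cube. -/
def lowCount (k e : ℕ) : ℕ :=
  (Finset.univ.filter fun S : Finset (Fin k) => 2 * S.card + 2 * e ≤ k).card

/-- Line forms: generation, direction, the other coordinates, one-dimensional form. -/
abbrev LineForm (L : ℕ) (Cc μ Bf : Type) : Type :=
  Fin L × (Σ c : Cc, ({c' : Cc // c' ≠ c} → μ)) × Bf

/-- What a payer for the epoch `q` at the node `θ` must hold. -/
def NeedOf {L : ℕ} {Cc μ T : Type} (near : T → μ → Prop) (q : Fin L × (Cc → μ)) (θ : Cc → T)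
    (p : Fin L × (Cc → μ)) : Prop :=
  p.1 ≤ q.1 ∧ ∃ c₀ : Cc, ∀ c, c ≠ c₀ → p.2 c = q.2 c ∨ near (θ c) (p.2 c)

end Pool.Agent.Work.MP_97f157_lc_C
end

-- merged part: Pool.Agent.Work.MP_97f157_lc_C.Trop2
section
set_option autoImplicit false

open Polynomial Finset Filter Topology

namespace Pool.Agent.Work.MP_97f157_lc_C

/-- Extraction of the constant term of a Laurent polynomial by interpolation. -/
theorem Trop2_extract (N B : ℕ) (h : 2 * B < N) :
    ∃ β : Fin N → ℝ, ∀ S : ℤ, |S| ≤ B →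
      ∑ i, β i * ((i : ℝ) + 1) ^ S = if S = 0 then 1 else 0 := by
  classical
  set v : Fin N → ℝ := fun i => (i : ℝ) + 1 with hv
  have hinj : Function.Injective v := by
    intro i j hij
    have : (i : ℝ) = j := by simpa [hv] using hij
    exact Fin.ext (by exact_mod_cast this)
  have hdet : (Matrix.vandermonde v).det ≠ 0 := Matrix.det_vandermonde_ne_zero_iff.2 hinj
  have hB : B < N := by omega
  set Γ := (Matrix.vandermonde v)⁻¹ with hΓ
  have hmul : Γ * Matrix.vandermonde v = 1 :=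
    Matrix.nonsing_inv_mul _ (Ne.isUnit hdet)
  refine ⟨fun i => Γ ⟨B, hB⟩ i * v i ^ B, fun S hS => ?_⟩
  have h1 := abs_le.1 hS
  obtain ⟨k, hk⟩ : ∃ k : ℕ, (k : ℤ) = S + B := ⟨(S + B).toNat, by omega⟩
  have hkN : k < N := by omega
  have h2 := congrFun (congrFun hmul ⟨B, hB⟩) ⟨k, hkN⟩
  rw [Matrix.mul_apply, Matrix.one_apply] at h2
  have h3 : ∀ i : Fin N, Γ ⟨B, hB⟩ i * v i ^ B * ((i : ℝ) + 1) ^ S
      = Γ ⟨B, hB⟩ i * Matrix.vandermonde v i ⟨k, hkN⟩ := by
    intro i
    have hpos : (0 : ℝ) < (i : ℝ) + 1 := by positivity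
    rw [Matrix.vandermonde_apply, mul_assoc]
    congr 1
    simp only [hv]
    rw [← zpow_natCast, ← zpow_natCast, ← zpow_add₀ hpos.ne', hk, add_comm (B : ℤ) S]
  rw [Finset.sum_congr rfl fun i _ => h3 i, h2]
  by_cases h0 : S = 0
  · have : B = k := by omega
    simp [h0, this]
  · have : B ≠ k := by omega
    simp [h0, this, Fin.ext_iff]

/-- Product expansion: the sum over the valid choices is a short sum of products. -/
theorem Trop2_expand {J Ω D : Type} [Fintype J] [DecidableEq J] [Nonempty J] [Fintype Ω]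
    [Fintype D] [DecidableEq D] (B : ℕ) (g : J → Ω → D → ℤ)
    (hg : ∀ (w : J → Ω) (l : D), |∑ j, g j (w j) l| ≤ B) (V : Finset (J → Ω))
    (hV : ∀ w, w ∈ V ↔ ∀ l, ∑ j, g j (w j) l = 0) (n : J → Ω → ℕ) (co : J → Ω → ℝ) :
    ∃ F : (D → Fin (2 * B + 1)) → J → ℝ[X], (∀ i j, (F i j).support ⊆ univ.image (n j)) ∧
      ∀ x : ℝ, eval x (∑ i, ∏ j, F i j) = ∑ w ∈ V, ∏ j, (co j (w j) * x ^ n j (w j)) := by
  classical
  obtain ⟨β, hβ⟩ := Trop2_extract (2 * B + 1) B (by omega)
  obtain ⟨j₀⟩ := (inferInstance : Nonempty J)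
  set b : (D → Fin (2 * B + 1)) → J → ℝ := fun i j => if j = j₀ then ∏ l, β (i l) else 1 with hb
  have hbprod : ∀ i, ∏ j, b i j = ∏ l, β (i l) := by
    intro i
    simp [hb]
  set cc : (D → Fin (2 * B + 1)) → J → Ω → ℝ := fun i j r =>
    b i j * co j r * ∏ l, (((i l : ℕ) : ℝ) + 1) ^ (g j r l) with hcc
  refine ⟨fun i j => ∑ r : Ω, monomial (n j r) (cc i j r), ?_, ?_⟩
  · intro i j e he
    rw [mem_support_iff, finsetSum_coeff] at he
    obtain ⟨r, -, hr⟩ := Finset.exists_ne_zero_of_sum_ne_zero he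
    rw [coeff_monomial] at hr
    have : n j r = e := by
      by_contra hne
      simp [hne] at hr
    exact Finset.mem_image.2 ⟨r, Finset.mem_univ _, this⟩
  · intro x
    have hVf : V = univ.filter fun w => w ∈ V := by simp
    rw [hVf, Finset.sum_filter, eval_finsetSum]
    simp only [eval_prod, eval_finsetSum, eval_monomial]
    simp only [Finset.prod_univ_sum, Fintype.piFinset_univ]
    rw [Finset.sum_comm]
    refine Finset.sum_congr rfl fun w _ => ?_
    have h1 : ∀ i : D → Fin (2 * B + 1),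
        ∏ j, cc i j (w j) * x ^ n j (w j) =
        (∏ j, (co j (w j) * x ^ n j (w j))) *
          ∏ l, (β (i l) * (((i l : ℕ) : ℝ) + 1) ^ (∑ j, g j (w j) l)) := by
      intro i
      have e2 : ∏ l, (((i l : ℕ) : ℝ) + 1) ^ (∑ j, g j (w j) l) =
          ∏ j, ∏ l, (((i l : ℕ) : ℝ) + 1) ^ (g j (w j) l) := by
        rw [Finset.prod_comm]
        refine Finset.prod_congr rfl fun l _ => ?_
        have hne : (((i l : ℕ) : ℝ) + 1) ≠ 0 := by positivity
        induction (Finset.univ : Finset J) using Finset.induction_on with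
        | empty => simp
        | insert y t hy ih => rw [Finset.sum_insert hy, Finset.prod_insert hy, zpow_add₀ hne, ih]
      rw [Finset.prod_mul_distrib (f := fun l => β (i l)), e2, ← hbprod]
      simp only [hcc, ← Finset.prod_mul_distrib]
      refine Finset.prod_congr rfl fun j _ => ?_
      ring
    rw [Finset.sum_congr rfl fun i _ => h1 i, ← Finset.mul_sum]
    have h2 : ∑ i : D → Fin (2 * B + 1),
        ∏ l, (β (i l) * (((i l : ℕ) : ℝ) + 1) ^ (∑ j, g j (w j) l)) =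
        ∏ l, ∑ y : Fin (2 * B + 1), β y * (((y : ℕ) : ℝ) + 1) ^ (∑ j, g j (w j) l) := by
      rw [Finset.prod_univ_sum, Fintype.piFinset_univ]
    rw [h2, Finset.prod_congr rfl fun l _ => hβ _ (hg w l)]
    by_cases hv : w ∈ V
    · have := (hV w).1 hv
      simp [hv, this]
    · obtain ⟨l, hl⟩ := not_forall.1 (fun h => hv ((hV w).2 h))
      rw [Finset.prod_eq_zero (Finset.mem_univ l) (by simp [hl])]
      simp [hv]

/-- The dominant terms decide the sign. -/
theorem Trop2_pos {W A : Type} [Fintype A] (V : Finset W) (cost : A → W → ℝ) (X : A → W)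
    (hX : ∀ a, X a ∈ V) (sg : W → ℝ) (hsg : ∀ w, sg w = 1 ∨ sg w = -1)
    (hmin : ∀ a, ∀ w ∈ V, cost a w ≤ cost a (X a) → sg w = sg (X a)) (M : A → ℝ) :
    ∃ s : ℝ, ∀ a, ∀ e : W → ℝ, (∀ w, |e w| ≤ M a) →
      0 < sg (X a) * ∑ w ∈ V, sg w * Real.exp (-(s * cost a w) + e w) := by
  classical
  have hlim : ∀ a, Tendsto (fun s : ℝ => ∑ w ∈ V.filter (fun w => cost a (X a) < cost a w),
      Real.exp (-(s * (cost a w - cost a (X a)))) * Real.exp (M a)) atTop (𝓝 0) := by
    intro a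
    have : (0 : ℝ) = ∑ w ∈ V.filter (fun w => cost a (X a) < cost a w), 0 := by simp
    rw [this]
    refine tendsto_finsetSum _ fun w hw => ?_
    have hgap : 0 < cost a w - cost a (X a) := sub_pos.2 (mem_filter.1 hw).2
    have h2 : Tendsto (fun s : ℝ => Real.exp (-(s * (cost a w - cost a (X a))))) atTop (𝓝 0) :=
      Real.tendsto_exp_neg_atTop_nhds_zero.comp (tendsto_id.atTop_mul_const hgap)
    simpa using h2.mul_const (Real.exp (M a))
  have hev : ∀ᶠ s in atTop, ∀ a, ∑ w ∈ V.filter (fun w => cost a (X a) < cost a w),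
      Real.exp (-(s * (cost a w - cost a (X a)))) * Real.exp (M a) < Real.exp (-M a) :=
    Filter.eventually_all.2 fun a => (hlim a).eventually (gt_mem_nhds (Real.exp_pos _))
  obtain ⟨s, hs⟩ := hev.exists
  refine ⟨s, fun a e he => ?_⟩
  have hsq : sg (X a) * sg (X a) = 1 := by rcases hsg (X a) with h | h <;> rw [h] <;> norm_num
  rw [Finset.mul_sum, ← Finset.sum_filter_add_sum_filter_not V fun w => cost a (X a) < cost a w]
  have h1 : Real.exp (-(s * cost a (X a))) * Real.exp (-M a) ≤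
      ∑ w ∈ V.filter (fun w => ¬ cost a (X a) < cost a w),
        sg (X a) * (sg w * Real.exp (-(s * cost a w) + e w)) := by
    refine le_trans ?_ (Finset.single_le_sum
      (f := fun w => sg (X a) * (sg w * Real.exp (-(s * cost a w) + e w))) ?_
      (mem_filter.2 ⟨hX a, lt_irrefl _⟩))
    · rw [← mul_assoc, hsq, one_mul, ← Real.exp_add]
      apply Real.exp_le_exp.2
      have := (abs_le.1 (he (X a))).1
      linarith
    · intro w hw
      obtain ⟨hw1, hw2⟩ := mem_filter.1 hw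
      rw [hmin a w hw1 (not_lt.1 hw2), ← mul_assoc, hsq, one_mul]
      exact (Real.exp_pos _).le
  have h2 : -(Real.exp (-(s * cost a (X a))) * ∑ w ∈ V.filter (fun w => cost a (X a) < cost a w),
      Real.exp (-(s * (cost a w - cost a (X a)))) * Real.exp (M a)) ≤
      ∑ w ∈ V.filter (fun w => cost a (X a) < cost a w),
        sg (X a) * (sg w * Real.exp (-(s * cost a w) + e w)) := by
    rw [Finset.mul_sum, ← Finset.sum_neg_distrib]
    refine Finset.sum_le_sum fun w _ => ?_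
    have e1 : Real.exp (-(s * cost a w) + e w) ≤ Real.exp (-(s * cost a (X a))) *
        (Real.exp (-(s * (cost a w - cost a (X a)))) * Real.exp (M a)) := by
      rw [← Real.exp_add, ← Real.exp_add]
      apply Real.exp_le_exp.2
      have := (abs_le.1 (he w)).2
      linarith
    have e2 := Real.exp_pos (-(s * cost a w) + e w)
    rcases hsg (X a) with h | h <;> rcases hsg w with h' | h' <;> rw [h, h'] <;> linarith
  have h3 := mul_lt_mul_of_pos_left (hs a) (Real.exp_pos (-(s * cost a (X a))))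
  linarith

/-- Random signs separate half of the given pairs. -/
theorem Trop2_signs {J Ω : Type} [Fintype J] [Fintype Ω] (n : ℕ) (u v : Fin n → J → Ω)
    (huv : ∀ i, u i ≠ v i) :
    ∃ σ : J → Ω → ℝ, (∀ j o, σ j o = 1 ∨ σ j o = -1) ∧
      ∑ i, (∏ j, σ j (u i j)) * (∏ j, σ j (v i j)) ≤ 0 := by
  classical
  have key : ∀ i, ∑ σ : J × Ω → ℤˣ,
      (∏ j, ((σ (j, u i j) : ℤ) : ℝ)) * (∏ j, ((σ (j, v i j) : ℤ) : ℝ)) = 0 := by
    intro i
    let f : (J × Ω → ℤˣ) →* ℝ :=
      { toFun := fun σ => (∏ j, ((σ (j, u i j) : ℤ) : ℝ)) * (∏ j, ((σ (j, v i j) : ℤ) : ℝ))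
        map_one' := by simp
        map_mul' := by
          intro x y
          simp only [Pi.mul_apply, Units.val_mul, Int.cast_mul, Finset.prod_mul_distrib]
          ring }
    have hf : f ≠ 1 := by
      obtain ⟨j₀, hj⟩ := Function.ne_iff.1 (huv i)
      intro h
      have h1 : f (Pi.mulSingle (j₀, u i j₀) (-1)) = 1 := by rw [h]; rfl
      have h2 : ∏ j, (((Pi.mulSingle (j₀, u i j₀) (-1) : J × Ω → ℤˣ) (j, u i j) : ℤ) : ℝ) = -1 := by
        rw [Finset.prod_eq_single j₀]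
        · simp
        · intro j _ hne
          rw [Pi.mulSingle_eq_of_ne (fun e => hne (congrArg Prod.fst e))]
          simp
        · simp
      have h3 : ∏ j, (((Pi.mulSingle (j₀, u i j₀) (-1) : J × Ω → ℤˣ) (j, v i j) : ℤ) : ℝ) = 1 := by
        refine Finset.prod_eq_one fun j _ => ?_
        rw [Pi.mulSingle_eq_of_ne]
        · simp
        · intro e
          obtain ⟨e1, e2⟩ := Prod.mk.inj e
          subst e1
          exact hj e2.symm
      change (∏ j, (((Pi.mulSingle (j₀, u i j₀) (-1) : J × Ω → ℤˣ) (j, u i j) : ℤ) : ℝ)) *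
        (∏ j, (((Pi.mulSingle (j₀, u i j₀) (-1) : J × Ω → ℤˣ) (j, v i j) : ℤ) : ℝ)) = 1 at h1
      rw [h2, h3] at h1
      norm_num at h1
    exact sum_hom_units_eq_zero f hf
  have tot : ∑ σ : J × Ω → ℤˣ, ∑ i,
      (∏ j, ((σ (j, u i j) : ℤ) : ℝ)) * (∏ j, ((σ (j, v i j) : ℤ) : ℝ)) ≤
      ∑ _σ : J × Ω → ℤˣ, (0 : ℝ) := by
    rw [Finset.sum_comm, Finset.sum_congr rfl fun i _ => key i]
    simp
  obtain ⟨σ, -, hσ⟩ := Finset.exists_le_of_sum_le Finset.univ_nonempty tot
  refine ⟨fun j o => ((σ (j, o) : ℤ) : ℝ), fun j o => ?_, hσ⟩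
  rcases Int.units_eq_one_or (σ (j, o)) with h | h <;> simp [h]

/-- Sign changes give distinct roots. -/
theorem Trop2_roots (f : ℝ[X]) (n : ℕ) (x ε : Fin (n + 1) → ℝ) (hx : StrictMono x)
    (hε : ∀ i, ε i = 1 ∨ ε i = -1) (hpos : ∀ i, 0 < ε i * eval (x i) f)
    (hsum : ∑ i : Fin n, ε i.castSucc * ε i.succ ≤ 0) :
    f ≠ 0 ∧ n / 2 ≤ f.roots.toFinset.card := by
  classical
  have hf : f ≠ 0 := by
    rintro rfl
    simpa using hpos 0
  refine ⟨hf, ?_⟩
  set T : Finset (Fin n) := univ.filter fun i => ε i.castSucc * ε i.succ < 0 with hT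
  have hroot : ∀ i : Fin n, ∃ r : ℝ, i ∈ T → x i.castSucc < r ∧ r < x i.succ ∧ eval r f = 0 := by
    intro i
    by_cases hi : i ∈ T
    · have hneg := (mem_filter.1 hi).2
      have hlt : x i.castSucc < x i.succ := hx Fin.castSucc_lt_succ
      have h1 := hpos i.castSucc
      have h2 := hpos i.succ
      have hc : ContinuousOn (fun y => eval y f) (Set.Icc (x i.castSucc) (x i.succ)) :=
        f.continuous.continuousOn
      rcases hε i.castSucc with h | h <;> rcases hε i.succ with h' | h' <;>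
        rw [h, h'] at hneg <;> rw [h] at h1 <;> rw [h'] at h2
      · norm_num at hneg
      · obtain ⟨r, hr, hr0⟩ := intermediate_value_Ioo' hlt.le hc
          (show (0 : ℝ) ∈ Set.Ioo (eval (x i.succ) f) (eval (x i.castSucc) f) from
            ⟨by linarith, by linarith⟩)
        exact ⟨r, fun _ => ⟨hr.1, hr.2, hr0⟩⟩
      · obtain ⟨r, hr, hr0⟩ := intermediate_value_Ioo hlt.le hc
          (show (0 : ℝ) ∈ Set.Ioo (eval (x i.castSucc) f) (eval (x i.succ) f) from
            ⟨by linarith, by linarith⟩)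
        exact ⟨r, fun _ => ⟨hr.1, hr.2, hr0⟩⟩
      · norm_num at hneg
    · exact ⟨0, fun h => absurd h hi⟩
  choose r hr using hroot
  have hmono : ∀ i ∈ T, ∀ i' ∈ T, i < i' → r i < r i' := by
    intro i hi i' hi' hlt
    have h1 : x i.succ ≤ x i'.castSucc := hx.monotone (by
      rw [Fin.le_def]
      simp only [Fin.val_succ, Fin.val_castSucc]
      exact hlt)
    exact lt_of_lt_of_le (hr i hi).2.1 (h1.trans (hr i' hi').1.le)
  have hcard : T.card ≤ f.roots.toFinset.card := by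
    apply Finset.card_le_card_of_injOn r
    · intro i hi
      rw [mem_coe, Multiset.mem_toFinset, mem_roots hf]
      exact (hr i hi).2.2
    · intro i hi i' hi' e
      rcases lt_trichotomy i i' with h | h | h
      · exact absurd e (hmono i hi i' hi' h).ne
      · exact h
      · exact absurd e.symm (hmono i' hi' i hi h).ne
  have hcount : (n : ℝ) - 2 * T.card ≤ ∑ i : Fin n, ε i.castSucc * ε i.succ := by
    have e1 : (n : ℝ) - 2 * T.card = ∑ i : Fin n, (1 - 2 * if i ∈ T then (1 : ℝ) else 0) := by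
      rw [Finset.sum_sub_distrib, ← Finset.mul_sum]
      simp
    rw [e1]
    refine Finset.sum_le_sum fun i _ => ?_
    have hiT : i ∈ T ↔ ε i.castSucc * ε i.succ < 0 := by simp [hT]
    by_cases hi : i ∈ T
    · rw [if_pos hi]
      rcases hε i.castSucc with h | h <;> rcases hε i.succ with h' | h' <;> rw [h, h'] <;> norm_num
    · rw [if_neg hi]
      rw [hiT] at hi
      have hi' := not_lt.1 hi
      rcases hε i.castSucc with h | h <;> rcases hε i.succ with h' | h' <;>
        rw [h, h'] at hi' ⊢ <;> linarith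
  have h2 : (n : ℝ) ≤ 2 * T.card := by linarith
  have h3 : n ≤ 2 * T.card := by exact_mod_cast h2
  omega

/-- Part T: a tropical group-register design gives real roots. -/
theorem trop2 {J Ω D A S : Type} [Fintype J] [DecidableEq J] [Nonempty J] [Fintype Ω]
    [Fintype D] [Fintype A] [Nonempty A]
    (t B : ℕ) (c b : J → Ω → ℝ)
    (hb : ∀ j, ∃ I : Finset ℝ, I.card ≤ t ∧ ∀ o, b j o ∈ I)
    (g : J → Ω → D → ℤ) (hg : ∀ (w : J → Ω) (l : D), |∑ j, g j (w j) l| ≤ B)
    (lam : A → ℝ) (X : A → J → Ω) (hX : ∀ a l, ∑ j, g j (X a j) l = 0)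
    (sig : J → Ω → S) (hsig : ∀ a a', (∀ j, sig j (X a j) = sig j (X a' j)) → a = a')
    (hmin : ∀ a (w : J → Ω), (∀ l, ∑ j, g j (w j) l = 0) →
      ∑ j, (c j (w j) - lam a * b j (w j)) ≤ ∑ j, (c j (X a j) - lam a * b j (X a j)) →
      ∀ j, sig j (w j) = sig j (X a j)) :
    HasRoots ((2 * B + 1) ^ Fintype.card D) (Fintype.card J) t ((Fintype.card A - 1) / 2) := by
  classical
  have hlam : Function.Injective lam := by
    intro a a' e
    rcases le_total (∑ j, (c j (X a' j) - lam a * b j (X a' j)))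
      (∑ j, (c j (X a j) - lam a * b j (X a j))) with h | h
    · exact (hsig a' a (hmin a (X a') (hX a') h)).symm
    · rw [e] at h
      exact hsig a a' (hmin a' (X a) (hX a) h)
  obtain ⟨n, hn⟩ : ∃ n, Fintype.card A = n + 1 :=
    ⟨Fintype.card A - 1, by have := Fintype.card_pos (α := A); omega⟩
  obtain ⟨en, hen⟩ : ∃ en : Fin (n + 1) → A, StrictMono (lam ∘ en) := by
    let e0 : Fin (n + 1) ≃ A := (Fintype.equivFinOfCardEq hn).symm
    refine ⟨e0 ∘ Tuple.sort (lam ∘ e0), ?_⟩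
    exact (Tuple.monotone_sort (lam ∘ e0)).strictMono_of_injective
      ((hlam.comp e0.injective).comp (Tuple.sort (lam ∘ e0)).injective)
  obtain ⟨rep, hrep⟩ : ∃ rep : J → Ω → Ω, ∀ j o o', rep j o = rep j o' ↔ sig j o = sig j o' := by
    have h1 : ∀ j o, ∃ o', sig j o' = sig j o := fun j o => ⟨o, rfl⟩
    refine ⟨fun j o => Classical.choose (h1 j o), fun j o o' => ⟨fun e => ?_, fun e => ?_⟩⟩
    · rw [← Classical.choose_spec (h1 j o), ← Classical.choose_spec (h1 j o')]
      exact congrArg (sig j) e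
    · simp only [e]
  obtain ⟨σ, hσ, hsum⟩ := Trop2_signs n (fun i j => rep j (X (en i.castSucc) j))
    (fun i j => rep j (X (en i.succ) j)) (by
      intro i e
      have h1 : en i.castSucc = en i.succ :=
        hsig _ _ fun j => (hrep j _ _).1 (congrFun e j)
      have h2 := hen (Fin.castSucc_lt_succ (i := i))
      simp only [Function.comp, h1] at h2
      exact lt_irrefl _ h2)
  set sg : (J → Ω) → ℝ := fun w => ∏ j, σ j (rep j (w j)) with hsgd
  have hsg : ∀ w, sg w = 1 ∨ sg w = -1 := by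
    intro w
    refine Finset.prod_induction _ (fun y : ℝ => y = 1 ∨ y = -1) ?_ (Or.inl rfl)
      fun j _ => hσ j _
    rintro y z (rfl | rfl) (rfl | rfl) <;> norm_num
  set V : Finset (J → Ω) := univ.filter fun w => ∀ l, ∑ j, g j (w j) l = 0 with hVd
  have hV : ∀ w, w ∈ V ↔ ∀ l, ∑ j, g j (w j) l = 0 := fun w => by simp [hVd]
  obtain ⟨s, hs⟩ := Trop2_pos V (fun a w => ∑ j, (c j (w j) - lam a * b j (w j))) X
    (fun a => (hV _).2 (hX a)) sg hsg
    (fun a w hw h => Finset.prod_congr rfl fun j _ => by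
      rw [(hrep j _ _).2 (hmin a w ((hV w).1 hw) h j)])
    (fun a => |lam a| * Fintype.card J)
  obtain ⟨sh, hsh⟩ : ∃ sh : J → ℤ, ∀ j o, 0 ≤ ⌊s * b j o⌋ + sh j := by
    refine ⟨fun j => ∑ o, |⌊s * b j o⌋|, fun j o => ?_⟩
    have h1 : |⌊s * b j o⌋| ≤ ∑ o', |⌊s * b j o'⌋| :=
      Finset.single_le_sum (f := fun o' => |⌊s * b j o'⌋|) (fun _ _ => abs_nonneg _)
        (Finset.mem_univ o)
    have := neg_abs_le ⌊s * b j o⌋
    linarith
  have hcast : ∀ j o, (((⌊s * b j o⌋ + sh j).toNat : ℕ) : ℝ) = (⌊s * b j o⌋ : ℝ) + (sh j : ℝ) := by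
    intro j o
    have h3 : (((⌊s * b j o⌋ + sh j).toNat : ℕ) : ℤ) = ⌊s * b j o⌋ + sh j :=
      Int.toNat_of_nonneg (hsh j o)
    exact_mod_cast congrArg (fun z : ℤ => (z : ℝ)) h3
  obtain ⟨F, hF, hev⟩ := Trop2_expand B g hg V hV (fun j o => (⌊s * b j o⌋ + sh j).toNat)
    (fun j o => σ j (rep j o) * Real.exp (-(s * c j o)))
  have hpos : ∀ a, 0 < sg (X a) * eval (Real.exp (lam a)) (∑ i, ∏ j, F i j) := by
    intro a
    have h1 := hs a (fun w => lam a * ∑ j, ((⌊s * b j (w j)⌋ : ℝ) - s * b j (w j))) (by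
      intro w
      rw [abs_mul]
      refine mul_le_mul_of_nonneg_left ?_ (abs_nonneg _)
      refine (Finset.abs_sum_le_sum_abs _ _).trans ?_
      have : (Fintype.card J : ℝ) = ∑ _j : J, (1 : ℝ) := by simp
      rw [this]
      refine Finset.sum_le_sum fun j _ => abs_le.2 ⟨?_, ?_⟩
      · have := Int.lt_floor_add_one (s * b j (w j))
        linarith
      · have := Int.floor_le (s * b j (w j))
        linarith)
    have h2 : eval (Real.exp (lam a)) (∑ i, ∏ j, F i j) = Real.exp (lam a * ∑ j, (sh j : ℝ)) *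
        ∑ w ∈ V, sg w * Real.exp (-(s * ∑ j, (c j (w j) - lam a * b j (w j))) +
          lam a * ∑ j, ((⌊s * b j (w j)⌋ : ℝ) - s * b j (w j))) := by
      rw [hev, Finset.mul_sum]
      refine Finset.sum_congr rfl fun w _ => ?_
      rw [mul_left_comm, ← Real.exp_add, Finset.mul_sum, Finset.mul_sum, Finset.mul_sum,
        ← Finset.sum_neg_distrib, ← Finset.sum_add_distrib, ← Finset.sum_add_distrib,
        Real.exp_sum, hsgd, ← Finset.prod_mul_distrib]
      refine Finset.prod_congr rfl fun j _ => ?_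
      rw [← Real.exp_nat_mul, mul_assoc, ← Real.exp_add, hcast]
      congr 2
      ring
    rw [h2, mul_left_comm]
    exact mul_pos (Real.exp_pos _) h1
  obtain ⟨hne, hcard⟩ := Trop2_roots (∑ i, ∏ j, F i j) n (fun i => Real.exp (lam (en i)))
    (fun i => sg (X (en i))) (Real.exp_strictMono.comp hen) (fun i => hsg _)
    (fun i => hpos _) hsum
  let e1 : (D → Fin (2 * B + 1)) ≃ Fin ((2 * B + 1) ^ Fintype.card D) :=
    Fintype.equivFinOfCardEq (by simp)
  let e2 : J ≃ Fin (Fintype.card J) := Fintype.equivFin J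
  have hre : ∑ i, ∏ j, F (e1.symm i) (e2.symm j) = ∑ i, ∏ j, F i j := by
    rw [← e1.symm.sum_comp fun i => ∏ j, F i j]
    exact Finset.sum_congr rfl fun i _ => e2.symm.prod_comp fun j => F (e1.symm i) j
  refine ⟨fun i j => F (e1.symm i) (e2.symm j), fun i j => ?_, ?_, ?_⟩
  · obtain ⟨I, hI, hIb⟩ := hb (e2.symm j)
    refine le_trans (Finset.card_le_card ((hF _ _).trans ?_))
      ((Finset.card_image_le (s := I) (f := fun y => (⌊s * y⌋ + sh (e2.symm j)).toNat)).trans hI)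
    intro k hk
    obtain ⟨o, -, rfl⟩ := Finset.mem_image.1 hk
    exact Finset.mem_image.2 ⟨_, hIb o, rfl⟩
  · rw [hre]
    exact hne
  · rw [hre, hn, Nat.add_sub_cancel]
    exact hcard

end Pool.Agent.Work.MP_97f157_lc_C
end

-- merged part: Pool.Agent.Work.MP_97f157_lc_C.Scales
section
set_option autoImplicit false

open Finset Filter Topology

namespace Pool.Agent.Work.MP_97f157_lc_C

theorem Scales_tend {St : Type} [Fintype St] (r : St → ℕ) (hr : Function.Injective r)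
    (d : St → ℝ) (s₀ : St) :
    Tendsto (fun V : ℝ => (∑ s ∈ Finset.univ.filter (fun s => r s ≤ r s₀), V ^ r s * d s) /
      V ^ r s₀) atTop (𝓝 (d s₀)) := by
  classical
  have e : d s₀ = ∑ s ∈ Finset.univ.filter (fun s => r s ≤ r s₀), if s = s₀ then d s else 0 := by
    simp
  rw [e]
  simp only [sum_div]
  refine tendsto_finsetSum _ fun s hs => ?_
  by_cases h : s = s₀
  · subst h
    rw [if_pos rfl]
    refine tendsto_const_nhds.congr' ?_
    filter_upwards [eventually_gt_atTop 0] with V hV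
    field_simp
  · rw [if_neg h]
    have := (tendsto_pow_div_pow_atTop_zero (𝕜 := ℝ)
      (lt_of_le_of_ne (mem_filter.1 hs).2 fun k => h (hr k))).mul_const (d s)
    rw [zero_mul] at this
    exact this.congr fun V => by ring

theorem Scales_top {St : Type} [Fintype St] (r : St → ℕ) (hr : Function.Injective r)
    (d : St → ℝ) (s₀ : St) (h0 : 0 < d s₀) (h : ∀ s, r s₀ < r s → d s = 0) :
    ∀ᶠ V : ℝ in atTop, 0 < ∑ s, V ^ r s * d s := by
  filter_upwards [(Scales_tend r hr d s₀).eventually (lt_mem_nhds h0), eventually_gt_atTop 0]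
    with V h1 hV
  rw [sum_filter_of_ne fun s _ k => not_lt.1 fun l => k (by rw [h s l, mul_zero])] at h1
  exact (div_pos_iff_of_pos_right (pow_pos hV _)).1 h1

theorem Scales_Q {O : Type} (τ β : O → ℝ) (hτ : Function.Injective τ) {δ : ℝ} (hδ : 0 < δ)
    (hg : ∀ x y, τ x < τ y → τ x + δ ≤ τ y) (hβ : ∀ x y, τ x < τ y → β x < β y) (s : Finset O) :
    ∃ Q : O → ℝ, ∀ x₀ ∈ s, ∀ x ∈ s, x ≠ x₀ → ∀ ρ, |ρ - τ x₀| < δ / 2 →
      Q x₀ - β x₀ * ρ < Q x - β x * ρ := by
  classical
  induction s using Finset.induction_on_max_value τ with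
  | empty => exact ⟨fun _ => 0, fun _ h => absurd h (notMem_empty _)⟩
  | insert a s ha hmax ih =>
    obtain rfl | hs := s.eq_empty_or_nonempty
    · refine ⟨fun _ => 0, fun x₀ h₀ x h k => absurd ?_ k⟩
      rw [insert_empty_eq, mem_singleton] at h h₀
      rw [h, h₀]
    obtain ⟨Q, hQ⟩ := ih
    obtain ⟨t, ht, hm⟩ := exists_max_image s τ hs
    have lt : τ t < τ a := lt_of_le_of_ne (hmax t ht) fun k => ha (hτ k ▸ ht)
    have g := hg t a lt
    have b := hβ t a lt
    have ne : ∀ x ∈ s, x ≠ a := fun x hx k => ha (k ▸ hx)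
    refine ⟨fun x => if x = a then Q t + (β a - β t) * (τ t + δ / 2) else Q x,
      fun x₀ h₀ x h k ρ hρ => ?_⟩
    have hρ' := abs_lt.1 hρ
    rw [mem_insert] at h₀ h
    rcases h₀ with rfl | h₀ <;> rcases h with rfl | h
    · exact absurd rfl k
    · simp only [if_pos, if_neg (ne x h)]
      have a1 : 0 < (β x₀ - β t) * (ρ - (τ t + δ / 2)) := mul_pos (by linarith) (by linarith)
      by_cases e : x = t
      · rw [e]
        linarith
      · have a2 := hQ t ht x h e (τ t) (by simpa using hδ)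
        have a3 := hβ x t (lt_of_le_of_ne (hm x h) fun k => e (hτ k))
        have a4 : 0 < (β t - β x) * (ρ - τ t) := mul_pos (by linarith) (by linarith)
        linarith
    · simp only [if_pos, if_neg (ne x₀ h₀)]
      have a0 := hm x₀ h₀
      have a1 : 0 < (β x - β t) * (τ t + δ / 2 - ρ) := mul_pos (by linarith) (by linarith)
      by_cases e : t = x₀
      · rw [← e]
        linarith
      · have a2 := hQ x₀ h₀ t ht e ρ hρ
        linarith
    · simp only [if_neg (ne x h), if_neg (ne x₀ h₀)]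
      exact hQ x₀ h₀ x h k ρ hρ

theorem Scales_pair {Z Dg : Type} [Fintype Z] (e : Z → ℕ) (he : Function.Injective e)
    (dv : Dg → ℝ) (hdv : Function.Injective dv) (x y : Z → Dg) (h : x ≠ y) :
    (∀ᶠ V : ℝ in atTop, ∑ z, V ^ e z * dv (x z) < ∑ z, V ^ e z * dv (y z)) ∨
      ∀ᶠ V : ℝ in atTop, ∑ z, V ^ e z * dv (y z) < ∑ z, V ^ e z * dv (x z) := by
  classical
  obtain ⟨z₀, h₀, hm⟩ := exists_max_image (Finset.univ.filter fun z => x z ≠ y z) e (by
    obtain ⟨z, hz⟩ := Function.ne_iff.1 h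
    exact ⟨z, mem_filter.2 ⟨mem_univ _, hz⟩⟩)
  have eq : ∀ z, e z₀ < e z → x z = y z := fun z hz => by
    by_contra k
    exact (hm z (mem_filter.2 ⟨mem_univ _, k⟩)).not_gt hz
  rcases lt_or_gt_of_ne fun k => (mem_filter.1 h₀).2 (hdv k) with l | l
  · refine Or.inl ((Scales_top e he (fun z => dv (y z) - dv (x z)) z₀ (sub_pos.2 l)
      fun z hz => by rw [eq z hz, sub_self]).mono fun V hV => ?_)
    simpa only [mul_sub, sum_sub_distrib, sub_pos] using hV
  · refine Or.inr ((Scales_top e he (fun z => dv (x z) - dv (y z)) z₀ (sub_pos.2 l)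
      fun z hz => by rw [eq z hz, sub_self]).mono fun V hV => ?_)
    simpa only [mul_sub, sum_sub_distrib, sub_pos] using hV

/-- Lexicographic combination of stages (larger rank is earlier). -/
theorem lex_stages {St V : Type} [Fintype St] [Finite V] (rk : St → ℕ)
    (hrk : Function.Injective rk) (ok : V → Prop) (d : St → V → ℝ) (Ag : St → V → Prop)
    (h : ∀ s u, ok u → (∀ s', rk s < rk s' → Ag s' u) →
      (Ag s u → d s u = 0) ∧ (¬ Ag s u → 0 < d s u)) :
    ∃ η : ℝ, ∀ u, ok u → ∑ s, η ^ rk s * d s u ≤ 0 → ∀ s, Ag s u := by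
  classical
  have key : ∀ u, ∀ᶠ η : ℝ in atTop, ok u → ∑ s, η ^ rk s * d s u ≤ 0 → ∀ s, Ag s u := by
    intro u
    by_cases hu : ok u ∧ ∃ s, ¬ Ag s u
    · obtain ⟨hu, s, hs⟩ := hu
      obtain ⟨s₀, h₀, hm⟩ := exists_max_image (Finset.univ.filter fun s => ¬ Ag s u) rk
        ⟨s, mem_filter.2 ⟨mem_univ _, hs⟩⟩
      have ag : ∀ s, rk s₀ < rk s → Ag s u := fun s hs => by
        by_contra k
        exact (hm s (mem_filter.2 ⟨mem_univ _, k⟩)).not_gt hs
      refine (Scales_top rk hrk (fun s => d s u) s₀ ((h s₀ u hu ag).2 (mem_filter.1 h₀).2)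
        fun s hs => (h s u hu fun s' hs' => ag s' (hs.trans hs')).1 (ag s hs)).mono
        fun η hη _ k => absurd hη k.not_gt
    · refine Eventually.of_forall fun η hu' _ s => ?_
      by_contra k
      exact hu ⟨hu', s, k⟩
  exact (eventually_all.2 key).exists

/-- The choice of the scales and of the convex cost. -/
theorem scales {P Z Dg : Type} [Fintype P] [Fintype Z] [Finite Dg]
    (ex : P → ℕ) (hex : Function.Injective ex) (e : Z → ℕ) (he : Function.Injective e)
    (dv : Dg → ℝ) (hdv : Function.Injective dv) :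
    ∃ (w₀ W : ℝ) (Q : (Z → Dg) → ℝ), ∀ (α : P → Z → Dg) (q : P) (x : Z → Dg), x ≠ α q →
      W ^ ex q * Q (α q) - (∑ z, W ^ e z * dv (α q z)) *
          (∑ p ∈ Finset.univ.filter (fun p => ex p ≤ ex q), W ^ ex p * ∑ z, w₀ ^ e z * dv (α p z))
        < W ^ ex q * Q x - (∑ z, W ^ e z * dv (x z)) *
          (∑ p ∈ Finset.univ.filter (fun p => ex p ≤ ex q),
            W ^ ex p * ∑ z, w₀ ^ e z * dv (α p z)) := by
  classical
  obtain ⟨val, hval⟩ : ∃ val : ℝ → (Z → Dg) → ℝ, ∀ V x, val V x = ∑ z, V ^ e z * dv (x z) :=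
    ⟨_, fun _ _ => rfl⟩
  simp only [← hval]
  have pair : ∀ x y, x ≠ y →
      (∀ᶠ V in atTop, val V x < val V y) ∨ ∀ᶠ V in atTop, val V y < val V x := fun x y h => by
    simpa only [hval] using Scales_pair e he dv hdv x y h
  have ev : ∀ᶠ V in atTop, ∀ x y, (∀ᶠ V' in atTop, val V' x < val V' y) → val V x < val V y := by
    refine eventually_all.2 fun x => eventually_all.2 fun y => ?_
    by_cases k : ∀ᶠ V' in atTop, val V' x < val V' y
    · exact k.mono fun _ h _ => h
    · exact Eventually.of_forall fun _ h => absurd h k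
  obtain ⟨w₀, hw⟩ := ev.exists
  have inj : Function.Injective (val w₀) := fun x y k => by
    by_contra h
    rcases pair x y h with l | l
    · exact (hw _ _ l).ne k
    · exact (hw _ _ l).ne' k
  have gap : ∀ᶠ δ in 𝓝[>] (0 : ℝ), ∀ x y, val w₀ x < val w₀ y → val w₀ x + δ ≤ val w₀ y := by
    refine eventually_all.2 fun x => eventually_all.2 fun y => ?_
    by_cases k : val w₀ x < val w₀ y
    · exact ((eventually_lt_nhds (sub_pos.2 k)).filter_mono nhdsWithin_le_nhds).mono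
        fun δ h _ => by linarith
    · exact Eventually.of_forall fun _ h => absurd h k
  obtain ⟨δ, hg, hδ⟩ := (gap.and self_mem_nhdsWithin).exists
  have hδ : 0 < δ := hδ
  have tail : ∀ᶠ W : ℝ in atTop, ∀ (α : P → Z → Dg) (q : P),
      |(∑ p ∈ Finset.univ.filter (fun p => ex p ≤ ex q), W ^ ex p * val w₀ (α p)) / W ^ ex q -
        val w₀ (α q)| < δ / 2 :=
    eventually_all.2 fun α => eventually_all.2 fun q =>
      Metric.tendsto_nhds.1 (Scales_tend ex hex (fun p => val w₀ (α p)) q) _ (half_pos hδ)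
  obtain ⟨W, ⟨h1, h2⟩, h3⟩ := ((tail.and ev).and (eventually_gt_atTop 0)).exists
  obtain ⟨Q, hQ⟩ := Scales_Q (val w₀) (val W) inj hδ hg (fun x y k => by
    rcases pair x y (fun l => k.ne (l ▸ rfl)) with l | l
    · exact h2 _ _ l
    · exact absurd (hw _ _ l) k.not_gt) (Set.finite_univ (α := Z → Dg)).toFinset
  refine ⟨w₀, W, Q, fun α q x hx => ?_⟩
  have := mul_lt_mul_of_pos_left (hQ (α q) (by simp) x (by simp) hx _ (h1 α q)) (pow_pos h3 (ex q))
  have n := (pow_pos h3 (ex q)).ne'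
  simpa only [mul_sub, mul_left_comm (W ^ ex q) (val W _), mul_div_cancel₀ _ n] using this

end Pool.Agent.Work.MP_97f157_lc_C
end

-- merged part: Pool.Agent.Work.MP_97f157_lc_C.Core1
section
set_option autoImplicit false

open Finset

namespace Pool.Agent.Work.MP_97f157_lc_C

/-- All the data of the first layer of part C. -/
structure CoreData (P J Θ E Φ O Bt G : Type) [Fintype P] [Fintype Θ] [Fintype Φ] [Fintype Bt]
    [Fintype G] where
  ex : P → ℕ
  ex_inj : Function.Injective ex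
  home : P → J
  X : J → Finset P
  home_mem : ∀ p, p ∈ X (home p)
  ch : P → Θ → E
  ch_inj : ∀ p, Function.Injective (ch p)
  ab : E → J
  Need : P → Θ → P → Prop
  clos1 : ∀ j p q θ θ', p ∈ X j → ex p < ex q → ch q θ' = ch p θ →
    ∀ p', Need q θ' p' → p' ∈ X j
  clos2 : ∀ q θ' p', Need q θ' p' → p' ∈ X (ab (ch q θ'))
  cf : Φ → P → ℂ
  top : Φ → P
  top_le : ∀ f p, cf f p ≠ 0 → ex (top f) ≤ ex p
  τ : O → ℝ
  β : O → ℝ
  M : P → ℝ
  Q : P → O → ℝ
  hQ : ∀ (α : P → O) (q : P) (x : O), x ≠ α q →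
    Q q (α q) - β (α q) * (∑ p ∈ Finset.univ.filter (fun p => ex p ≤ ex q), M p * τ (α p))
      < Q q x - β x * (∑ p ∈ Finset.univ.filter (fun p => ex p ≤ ex q), M p * τ (α p))
  dI : Θ → O → Bt → ℤ
  ε : Bt → ℂ
  fI : Φ → P → O → G → ℤ
  γ : G → ℂ
  hf1 : ∀ f p o, ∑ g, (fI f p o g : ℂ) * γ g = cf f p * (τ o : ℂ)
  hf0 : ∀ f p, cf f p = 0 → ∀ o g, fI f p o g = 0
  Λ : Θ → ℂ
  Y : Θ → P → ℂ
  hΛ : ∀ o p, ∑ θ, Λ θ * (∑ b, (dI θ o b : ℂ) * ε b) * Y θ p = (β o : ℂ) * (M p : ℂ)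
  κ : P → Θ → Φ → ℂ
  hκ1 : ∀ q θ f, κ q θ f ≠ 0 → ex q < ex (top f)
  hκ2 : ∀ q θ p, ex q < ex p → Y θ p ≠ ∑ f, κ q θ f * cf f p → Need q θ p

/-- An option of a factor: epoch digits, copies of the broadcast forms, absorber values. -/
abbrev Opt (P E Φ O Bt G : Type) : Type := (P → O) × (Φ × G → ℤ) × (E × Bt → ℤ)

namespace CoreData

open Classical

variable {P J Θ E Φ O Bt G : Type} [Fintype P] [Fintype Θ] [Fintype Φ] [Fintype Bt] [Fintype G]
  [Fintype J] (c : CoreData P J Θ E Φ O Bt G)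

/-- Integer deposit of the epochs of `S` on the channel `e`. -/
noncomputable def dep (S : Finset P) (x : P → O) (e : E) (b : Bt) : ℤ :=
  ∑ p ∈ S, ∑ θ, if c.ch p θ = e then c.dI θ (x p) b else 0

/-- Complex value of one deposit. -/
noncomputable def dC (θ : Θ) (o : O) : ℂ := ∑ b, (c.dI θ o b : ℂ) * c.ε b

/-- Complex deposit of the epochs of `S` on the channel `e`. -/
noncomputable def depC (S : Finset P) (x : P → O) (e : E) : ℂ :=
  ∑ p ∈ S, ∑ θ, if c.ch p θ = e then c.dC θ (x p) else 0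

/-- Channel registers. -/
noncomputable def gE (j : J) (o : Opt P E Φ O Bt G) (l : E × Bt) : ℤ :=
  c.dep (c.X j) o.1 l.1 l.2 + if c.ab l.1 = j then o.2.2 l else 0

/-- Broadcast registers. -/
noncomputable def gF (j : J) (o : Opt P E Φ O Bt G) (l : Φ × G) : ℤ :=
  (Fintype.card J : ℤ) *
    (∑ p ∈ Finset.univ.filter (fun p => c.home p = j), c.fI l.1 p (o.1 p) l.2) - o.2.1 l

/-- Validity of a choice of options. -/
def Valid (w : J → Opt P E Φ O Bt G) : Prop :=
  (∀ l, ∑ j, c.gE j (w j) l = 0) ∧ ∀ l, ∑ j, c.gF j (w j) l = 0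

/-- The private part of a price. -/
noncomputable def κ' (q : P) (θ : Θ) (p : P) : ℂ :=
  (if c.ex q < c.ex p then c.Y θ p else 0) - ∑ f, c.κ q θ f * c.cf f p

/-- The price as seen by a factor. -/
noncomputable def price (q : P) (θ : Θ) (o : Opt P E Φ O Bt G) : ℂ :=
  ∑ f, c.κ q θ f * (∑ g, (o.2.1 (f, g) : ℂ) * c.γ g) + ∑ p, c.κ' q θ p * (c.τ (o.1 p) : ℂ)

/-- The true price. -/
noncomputable def tprice (q : P) (θ : Θ) (α : P → O) : ℂ :=
  ∑ p, (if c.ex q < c.ex p then c.Y θ p else 0) * (c.τ (α p) : ℂ)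

/-- Later deposits and the absorber. -/
noncomputable def late (q : P) (θ : Θ) (j : J) (o : Opt P E Φ O Bt G) : ℂ :=
  c.depC ((c.X j).filter fun p => c.ex p < c.ex q) o.1 (c.ch q θ) +
    if c.ab (c.ch q θ) = j then ∑ b, (o.2.2 (c.ch q θ, b) : ℂ) * c.ε b else 0

/-- Stage costs. -/
noncomputable def cS : P ⊕ P → J → Opt P E Φ O Bt G → ℝ
  | Sum.inl q, j, o => (if q ∈ c.X j then c.Q q (o.1 q) else 0) -
      (∑ θ, c.Λ θ * c.price q θ o * c.late q θ j o).re
  | Sum.inr q, _, o => ∑ f ∈ Finset.univ.filter (fun f => c.top f = q), ∑ g,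
      ((o.2.1 (f, g) : ℤ) : ℝ) ^ 2

/-- Stage slopes. -/
noncomputable def bS : P ⊕ P → J → (P → O) → ℝ
  | Sum.inl q, j, x => if q ∈ c.X j then c.β (x q) else 0
  | Sum.inr _, _, _ => 0

/-- Stage ranks. -/
def rk : P ⊕ P → ℕ
  | Sum.inl q => 2 * c.ex q + 1
  | Sum.inr q => 2 * c.ex q

/-- The parameter value of a target. -/
noncomputable def lam (α : P → O) : ℝ := ∑ p, c.M p * c.τ (α p)

/-- The true value of a broadcast form. -/
noncomputable def tI (α : P → O) (l : Φ × G) : ℤ := ∑ p, c.fI l.1 p (α p) l.2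

/-- The target option. -/
noncomputable def tgt (α : P → O) : Opt P E Φ O Bt G :=
  (α, c.tI α, fun l => -∑ j, c.dep (c.X j) α l.1 l.2)

/-- Agreement with the target at a stage. -/
def Ag : P ⊕ P → (J → Opt P E Φ O Bt G) → (P → O) → Prop
  | Sum.inl q, w, α => ∀ j, q ∈ c.X j → (w j).1 q = α q
  | Sum.inr q, w, α => ∀ j f, c.top f = q → ∀ g, (w j).2.1 (f, g) = c.tI α (f, g)

/-- Total stage cost. -/
noncomputable def SC (s : P ⊕ P) (w : J → Opt P E Φ O Bt G) (α : P → O) : ℝ :=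
  ∑ j, (c.cS s j (w j) - c.lam α * c.bS s j (w j).1)

omit [Fintype J] in
theorem rk_inj : Function.Injective c.rk := by
  rintro (p | p) (q | q) h <;> simp only [rk] at h
  · rw [c.ex_inj (show c.ex p = c.ex q by omega)]
  · omega
  · omega
  · rw [c.ex_inj (show c.ex p = c.ex q by omega)]

omit [Fintype J] in
theorem dep_sum (S : Finset P) (x : P → O) (e : E) :
    ∑ b, (c.dep S x e b : ℂ) * c.ε b = c.depC S x e := by
  simp only [dep, depC, dC]
  push_cast
  simp only [Finset.sum_mul]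
  rw [Finset.sum_comm]
  refine Finset.sum_congr rfl fun p _ => ?_
  rw [Finset.sum_comm]
  refine Finset.sum_congr rfl fun θ _ => ?_
  split_ifs <;> simp

theorem sum_home (F : J → P → ℤ) :
    ∑ j, ∑ p ∈ Finset.univ.filter (fun p => c.home p = j), F j p = ∑ p, F (c.home p) p := by
  simp only [Finset.sum_filter]
  rw [Finset.sum_comm]
  refine Finset.sum_congr rfl fun p _ => ?_
  simp

theorem tgt_valid (α : P → O) : c.Valid fun _ => c.tgt α := by
  constructor
  · intro l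
    simp only [gE, tgt, Finset.sum_add_distrib]
    simp
  · intro l
    simp only [gF, tgt, Finset.sum_sub_distrib, ← Finset.mul_sum]
    rw [c.sum_home fun _ p => c.fI l.1 p (α p) l.2]
    simp [tI]

theorem tgt_ag (α : P → O) (s : P ⊕ P) : c.Ag s (fun _ => c.tgt α) α := by
  rcases s with q | q
  · intro j _; rfl
  · intro j f _ g; rfl

omit [Fintype J] in
theorem κ'_ne (q : P) (θ : Θ) (p : P) (h : c.κ' q θ p ≠ 0) :
    c.ex q < c.ex p ∧ c.Need q θ p := by
  by_cases hp : c.ex q < c.ex p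
  · refine ⟨hp, c.hκ2 q θ p hp fun h' => h ?_⟩
    simp [κ', hp, h']
  · exfalso
    apply h
    simp only [κ', hp, if_false, zero_sub, neg_eq_zero]
    refine Finset.sum_eq_zero fun f _ => ?_
    by_contra hne
    have h1 := c.hκ1 q θ f (left_ne_zero_of_mul hne)
    have h2 := c.top_le f p (right_ne_zero_of_mul hne)
    omega

omit [Fintype J] in
/-- A factor that holds the needed epochs sees the true price. -/
theorem price_eq (q : P) (θ : Θ) (j : J) (w : J → Opt P E Φ O Bt G) (α : P → O)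
    (h0 : ∀ p, c.ex q < c.ex p → c.Ag (Sum.inl p) w α)
    (h1 : ∀ p, c.ex q < c.ex p → c.Ag (Sum.inr p) w α)
    (hN : ∀ p, c.Need q θ p → p ∈ c.X j) : c.price q θ (w j) = c.tprice q θ α := by
  have e1 : ∀ f, c.κ q θ f * (∑ g, ((w j).2.1 (f, g) : ℂ) * c.γ g) =
      ∑ p, c.κ q θ f * c.cf f p * (c.τ (α p) : ℂ) := by
    intro f
    by_cases hf : c.κ q θ f = 0
    · simp [hf]
    · have hA := h1 _ (c.hκ1 q θ f hf) j f rfl
      simp only [hA, tI]
      push_cast
      simp only [Finset.sum_mul, mul_assoc, ← Finset.mul_sum]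
      congr 1
      rw [Finset.sum_comm]
      exact Finset.sum_congr rfl fun p _ => c.hf1 f p (α p)
  have e2 : ∀ p, c.κ' q θ p * (c.τ ((w j).1 p) : ℂ) = c.κ' q θ p * (c.τ (α p) : ℂ) := by
    intro p
    by_cases hp : c.κ' q θ p = 0
    · simp [hp]
    · obtain ⟨h2, h3⟩ := c.κ'_ne q θ p hp
      rw [h0 p h2 j (hN p h3)]
  simp only [price, tprice, e1, e2]
  rw [Finset.sum_comm, ← Finset.sum_add_distrib]
  refine Finset.sum_congr rfl fun p _ => ?_
  simp only [κ', ← Finset.sum_mul]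
  ring

omit [Fintype J] in
theorem price_late (q : P) (θ : Θ) (j : J) (w : J → Opt P E Φ O Bt G) (α : P → O)
    (h0 : ∀ p, c.ex q < c.ex p → c.Ag (Sum.inl p) w α)
    (h1 : ∀ p, c.ex q < c.ex p → c.Ag (Sum.inr p) w α) :
    c.price q θ (w j) * c.late q θ j (w j) = c.tprice q θ α * c.late q θ j (w j) := by
  by_cases hN : ∀ p, c.Need q θ p → p ∈ c.X j
  · rw [c.price_eq q θ j w α h0 h1 hN]
  · have hl : c.late q θ j (w j) = 0 := by
      have ha : c.ab (c.ch q θ) ≠ j := by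
        intro h
        exact hN fun p hp => h ▸ c.clos2 q θ p hp
      simp only [late, ha, if_false, add_zero, depC]
      refine Finset.sum_eq_zero fun p hp => Finset.sum_eq_zero fun θ' _ => ?_
      rw [Finset.mem_filter] at hp
      rw [if_neg]
      intro h
      exact hN (c.clos1 j p q θ' θ hp.1 hp.2 h.symm)
    simp [hl]

/-- Deposits of the earlier epochs. -/
noncomputable def early (q : P) (θ : Θ) (α : P → O) : ℂ :=
  ∑ j, c.depC ((c.X j).filter fun p => c.ex q < c.ex p) α (c.ch q θ)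

theorem sum_late (q : P) (θ : Θ) (w : J → Opt P E Φ O Bt G) (α : P → O) (hv : c.Valid w)
    (h0 : ∀ p, c.ex q < c.ex p → c.Ag (Sum.inl p) w α) :
    ∑ j, c.late q θ j (w j) =
      -(∑ j, if q ∈ c.X j then c.dC θ ((w j).1 q) else 0) - c.early q θ α := by
  have hz : ∑ b, ((∑ j, c.gE j (w j) (c.ch q θ, b) : ℤ) : ℂ) * c.ε b = 0 := by
    simp [hv.1]
  have e1 : ∀ j, ∑ b, (c.gE j (w j) (c.ch q θ, b) : ℂ) * c.ε b =
      c.late q θ j (w j) + (if q ∈ c.X j then c.dC θ ((w j).1 q) else 0) +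
        c.depC ((c.X j).filter fun p => c.ex q < c.ex p) α (c.ch q θ) := by
    intro j
    have e2 : c.depC (c.X j) (w j).1 (c.ch q θ) =
        c.depC ((c.X j).filter fun p => c.ex p < c.ex q) (w j).1 (c.ch q θ) +
          (if q ∈ c.X j then c.dC θ ((w j).1 q) else 0) +
          c.depC ((c.X j).filter fun p => c.ex q < c.ex p) α (c.ch q θ) := by
      have e3 : (if q ∈ c.X j then c.dC θ ((w j).1 q) else 0) =
          ∑ p ∈ c.X j, if p = q then c.dC θ ((w j).1 q) else 0 := by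
        rw [Finset.sum_ite_eq']
      rw [e3]
      simp only [depC, Finset.sum_filter, ← Finset.sum_add_distrib]
      refine Finset.sum_congr rfl fun p hp => ?_
      rcases lt_trichotomy (c.ex p) (c.ex q) with h | h | h
      · have hne : p ≠ q := fun h' => by rw [h'] at h; exact lt_irrefl _ h
        simp [h, hne, h.not_gt]
      · have hpq : p = q := c.ex_inj h
        subst hpq
        simp [(c.ch_inj p).eq_iff]
      · have hne : p ≠ q := fun h' => by rw [h'] at h; exact lt_irrefl _ h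
        have := h0 p h j hp
        simp [h, hne, h.not_gt, this]
    simp only [gE]
    push_cast
    simp only [add_mul, Finset.sum_add_distrib]
    rw [c.dep_sum, e2, late]
    have e4 : ∑ b, (if c.ab (c.ch q θ) = j then ((w j).2.2 (c.ch q θ, b) : ℂ) else 0) * c.ε b =
        if c.ab (c.ch q θ) = j then ∑ b, ((w j).2.2 (c.ch q θ, b) : ℂ) * c.ε b else 0 := by
      split_ifs <;> simp
    rw [e4]
    ring
  push_cast at hz
  simp only [Finset.sum_mul] at hz
  rw [Finset.sum_comm, Finset.sum_congr rfl fun j _ => e1 j] at hz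
  simp only [Finset.sum_add_distrib] at hz
  rw [early]
  linear_combination hz

omit [Fintype J] in
theorem cross (q : P) (o : O) (α : P → O) :
    ∑ θ, c.Λ θ * c.tprice q θ α * c.dC θ o =
      ((c.β o * ∑ p ∈ Finset.univ.filter (fun p => c.ex q < c.ex p), c.M p * c.τ (α p) : ℝ) :
        ℂ) := by
  push_cast
  simp only [tprice, Finset.mul_sum, Finset.sum_mul, Finset.sum_filter]
  rw [Finset.sum_comm]
  refine Finset.sum_congr rfl fun p _ => ?_
  split_ifs
  · have := c.hΛ o p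
    rw [← mul_assoc, ← this, Finset.sum_mul]
    refine Finset.sum_congr rfl fun θ _ => ?_
    simp only [dC]
    ring
  · simp

/-- The value of the first kind of stage. -/
theorem SC_inl (q : P) (w : J → Opt P E Φ O Bt G) (α : P → O) (hv : c.Valid w)
    (h0 : ∀ p, c.ex q < c.ex p → c.Ag (Sum.inl p) w α)
    (h1 : ∀ p, c.ex q < c.ex p → c.Ag (Sum.inr p) w α) :
    c.SC (Sum.inl q) w α = (∑ θ, c.Λ θ * c.tprice q θ α * c.early q θ α).re +
      ∑ j, if q ∈ c.X j then c.Q q ((w j).1 q) - c.β ((w j).1 q) *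
        (∑ p ∈ Finset.univ.filter (fun p => c.ex p ≤ c.ex q), c.M p * c.τ (α p)) else 0 := by
  set T : ℝ := ∑ p ∈ Finset.univ.filter (fun p => c.ex q < c.ex p), c.M p * c.τ (α p) with hT
  have hlam : c.lam α =
      (∑ p ∈ Finset.univ.filter (fun p => c.ex p ≤ c.ex q), c.M p * c.τ (α p)) + T := by
    rw [hT, lam, ← Finset.sum_filter_add_sum_filter_not Finset.univ (fun p => c.ex p ≤ c.ex q)]
    simp only [not_le]
  have e1 : ∑ j, ∑ θ, c.Λ θ * c.price q θ (w j) * c.late q θ j (w j) =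
      -(∑ j, if q ∈ c.X j then ((c.β ((w j).1 q) * T : ℝ) : ℂ) else 0) -
        ∑ θ, c.Λ θ * c.tprice q θ α * c.early q θ α := by
    have e2 : ∀ j θ, c.Λ θ * c.price q θ (w j) * c.late q θ j (w j) =
        c.Λ θ * c.tprice q θ α * c.late q θ j (w j) := by
      intro j θ
      rw [mul_assoc, c.price_late q θ j w α h0 h1, mul_assoc]
    simp only [e2]
    rw [Finset.sum_comm]
    simp only [← Finset.mul_sum, c.sum_late q _ w α hv h0, mul_sub, mul_neg,
      Finset.sum_sub_distrib, Finset.sum_neg_distrib]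
    congr 2
    simp only [Finset.mul_sum]
    rw [Finset.sum_comm]
    refine Finset.sum_congr rfl fun j _ => ?_
    split_ifs
    · exact c.cross q _ α
    · simp
  have e3 := congrArg Complex.re e1
  rw [Complex.re_sum, Complex.sub_re, Complex.neg_re, Complex.re_sum] at e3
  have e4 : ∀ j, (if q ∈ c.X j then ((c.β ((w j).1 q) * T : ℝ) : ℂ) else 0).re =
      if q ∈ c.X j then c.β ((w j).1 q) * T else 0 := by
    intro j
    split_ifs
    · exact Complex.ofReal_re _
    · rfl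
  simp only [e4] at e3
  simp only [SC, cS, bS, Finset.sum_sub_distrib, e3]
  have e5 : ∀ j, (if q ∈ c.X j then c.Q q ((w j).1 q) - c.β ((w j).1 q) *
        (∑ p ∈ Finset.univ.filter (fun p => c.ex p ≤ c.ex q), c.M p * c.τ (α p)) else 0) =
      (if q ∈ c.X j then c.Q q ((w j).1 q) else 0) +
        (if q ∈ c.X j then c.β ((w j).1 q) * T else 0) -
        c.lam α * (if q ∈ c.X j then c.β ((w j).1 q) else 0) := by
    intro j
    split_ifs
    · rw [hlam]; ring
    · simp
  simp only [e5, Finset.sum_sub_distrib, Finset.sum_add_distrib]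
  ring

theorem stage_inl (q : P) (w : J → Opt P E Φ O Bt G) (α : P → O) (hv : c.Valid w)
    (h0 : ∀ p, c.ex q < c.ex p → c.Ag (Sum.inl p) w α)
    (h1 : ∀ p, c.ex q < c.ex p → c.Ag (Sum.inr p) w α) :
    (c.Ag (Sum.inl q) w α → c.SC (Sum.inl q) w α - c.SC (Sum.inl q) (fun _ => c.tgt α) α = 0) ∧
    (¬ c.Ag (Sum.inl q) w α →
      0 < c.SC (Sum.inl q) w α - c.SC (Sum.inl q) (fun _ => c.tgt α) α) := by
  rw [c.SC_inl q w α hv h0 h1, c.SC_inl q _ α (c.tgt_valid α) (fun p _ => c.tgt_ag α _)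
    (fun p _ => c.tgt_ag α _), add_sub_add_left_eq_sub, ← Finset.sum_sub_distrib]
  have ht : (c.tgt α).1 = α := rfl
  simp only [ht]
  constructor
  · intro hA
    refine Finset.sum_eq_zero fun j _ => ?_
    split_ifs with hj
    · rw [hA j hj, sub_self]
    · simp
  · intro hA
    simp only [Ag, not_forall] at hA
    obtain ⟨j₀, hj₀, hne⟩ := hA
    refine Finset.sum_pos' (fun j _ => ?_) ⟨j₀, Finset.mem_univ _, ?_⟩
    · split_ifs with hj
      · by_cases h : (w j).1 q = α q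
        · rw [h, sub_self]
        · exact sub_nonneg.2 (c.hQ α q _ h).le
      · simp
    · rw [if_pos hj₀, if_pos hj₀]
      exact sub_pos.2 (c.hQ α q _ hne)

theorem stage_inr (q : P) (w : J → Opt P E Φ O Bt G) (α : P → O) (hv : c.Valid w)
    (h0 : ∀ p, c.ex q ≤ c.ex p → c.Ag (Sum.inl p) w α) :
    (c.Ag (Sum.inr q) w α → c.SC (Sum.inr q) w α - c.SC (Sum.inr q) (fun _ => c.tgt α) α = 0) ∧
    (¬ c.Ag (Sum.inr q) w α →
      0 < c.SC (Sum.inr q) w α - c.SC (Sum.inr q) (fun _ => c.tgt α) α) := by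
  have hsum : ∀ f, c.top f = q → ∀ g,
      ∑ j, (((w j).2.1 (f, g) : ℤ) : ℝ) = Fintype.card J * (c.tI α (f, g) : ℝ) := by
    intro f hf g
    have h := hv.2 (f, g)
    simp only [gF, Finset.sum_sub_distrib, ← Finset.mul_sum] at h
    rw [c.sum_home fun j p => c.fI f p ((w j).1 p) g] at h
    have e1 : ∑ p, c.fI f p ((w (c.home p)).1 p) g = c.tI α (f, g) := by
      refine Finset.sum_congr rfl fun p _ => ?_
      by_cases hc : c.cf f p = 0
      · simp [c.hf0 f p hc]
      · rw [h0 p (hf ▸ c.top_le f p hc) _ (c.home_mem p)]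
    rw [e1, sub_eq_zero] at h
    exact_mod_cast h.symm
  have key : c.SC (Sum.inr q) w α - c.SC (Sum.inr q) (fun _ => c.tgt α) α =
      ∑ j, ∑ f ∈ Finset.univ.filter (fun f => c.top f = q), ∑ g,
        ((((w j).2.1 (f, g) : ℤ) : ℝ) - (c.tI α (f, g) : ℝ)) ^ 2 := by
    simp only [SC, cS, bS, mul_zero, sub_zero]
    have ht : (c.tgt α).2.1 = c.tI α := rfl
    simp only [ht]
    rw [Finset.sum_comm, Finset.sum_comm (s := Finset.univ (α := J)),
      Finset.sum_comm (s := Finset.univ (α := J)), ← Finset.sum_sub_distrib]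
    refine Finset.sum_congr rfl fun f hf => ?_
    rw [Finset.sum_comm, Finset.sum_comm (s := Finset.univ (α := J)),
      Finset.sum_comm (s := Finset.univ (α := J)), ← Finset.sum_sub_distrib]
    refine Finset.sum_congr rfl fun g _ => ?_
    have := hsum f (Finset.mem_filter.1 hf).2 g
    simp only [sub_sq, Finset.sum_add_distrib, Finset.sum_sub_distrib, mul_assoc,
      ← Finset.mul_sum, ← Finset.sum_mul, this]
    simp
    ring
  rw [key]
  constructor
  · intro hA
    refine Finset.sum_eq_zero fun j _ => Finset.sum_eq_zero fun f hf =>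
      Finset.sum_eq_zero fun g _ => ?_
    rw [hA j f (Finset.mem_filter.1 hf).2 g]
    simp
  · intro hA
    simp only [Ag, not_forall] at hA
    obtain ⟨j₀, f₀, hf₀, g₀, hne⟩ := hA
    refine Finset.sum_pos' (fun j _ => by positivity) ⟨j₀, Finset.mem_univ _, ?_⟩
    refine Finset.sum_pos' (fun f _ => by positivity)
      ⟨f₀, Finset.mem_filter.2 ⟨Finset.mem_univ _, hf₀⟩, ?_⟩
    refine Finset.sum_pos' (fun g _ => by positivity) ⟨g₀, Finset.mem_univ _, ?_⟩
    have : (((w j₀).2.1 (f₀, g₀) : ℤ) : ℝ) - (c.tI α (f₀, g₀) : ℝ) ≠ 0 := by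
      rw [sub_ne_zero]
      exact_mod_cast hne
    positivity

theorem stage (s : P ⊕ P) (w : J → Opt P E Φ O Bt G) (α : P → O) (hv : c.Valid w)
    (h : ∀ s', c.rk s < c.rk s' → c.Ag s' w α) :
    (c.Ag s w α → c.SC s w α - c.SC s (fun _ => c.tgt α) α = 0) ∧
    (¬ c.Ag s w α → 0 < c.SC s w α - c.SC s (fun _ => c.tgt α) α) := by
  rcases s with q | q
  · exact c.stage_inl q w α hv (fun p hp => h _ (by simp only [rk]; omega))
      (fun p hp => h _ (by simp only [rk]; omega))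
  · exact c.stage_inr q w α hv (fun p hp => h _ (by simp only [rk]; omega))

end CoreData

end Pool.Agent.Work.MP_97f157_lc_C
end

-- merged part: Pool.Agent.Work.MP_97f157_lc_C.Core
section
set_option autoImplicit false

open Finset

namespace Pool.Agent.Work.MP_97f157_lc_C

theorem core_abs_sum_le {ι : Type} (S : Finset ι) (f : ι → ℤ) (K : ℤ) (n : ℕ) (hK : 0 ≤ K)
    (hn : S.card ≤ n) (h : ∀ i, |f i| ≤ K) : |∑ i ∈ S, f i| ≤ n * K := by
  calc |∑ i ∈ S, f i| ≤ ∑ i ∈ S, |f i| := Finset.abs_sum_le_sum_abs _ _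
    _ ≤ ∑ i ∈ S, K := Finset.sum_le_sum fun i _ => h i
    _ = S.card * K := by simp
    _ ≤ n * K := by gcongr

namespace CoreData

open Classical

variable {P J Θ E Φ O Bt G : Type} [Fintype P] [Fintype Θ] [Fintype Φ] [Fintype Bt] [Fintype G]
  [Fintype J] (c : CoreData P J Θ E Φ O Bt G)

omit [Fintype J] in
theorem dep_le (K : ℕ) (hdI : ∀ θ o b, |c.dI θ o b| ≤ K) (S : Finset P) (x : P → O) (e : E)
    (b : Bt) : |c.dep S x e b| ≤ Fintype.card P * (Fintype.card Θ * K) := by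
  refine core_abs_sum_le _ _ _ _ (by positivity) (Finset.card_le_univ _) fun p => ?_
  refine core_abs_sum_le _ _ _ _ (by positivity) (Finset.card_le_univ _) fun θ => ?_
  split_ifs
  · exact hdI _ _ _
  · simp

theorem roots [Nonempty J] [Fintype E] [Fintype O] [Nonempty O] (s : ℕ)
    (hs : ∀ j, (c.X j).card ≤ s) (K : ℕ) (hdI : ∀ θ o b, |c.dI θ o b| ≤ K)
    (hfI : ∀ f p o g, |c.fI f p o g| ≤ K) :
    HasRoots ((2 * (2 * Fintype.card J ^ 2 * Fintype.card P * (Fintype.card Θ + 1) * K) + 1) ^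
        (Fintype.card E * Fintype.card Bt + Fintype.card Φ * Fintype.card G))
      (Fintype.card J) (Fintype.card O ^ s) ((Fintype.card O ^ Fintype.card P - 1) / 2) := by
  obtain ⟨R, hR⟩ : ∃ R : ℤ, R = Fintype.card J * Fintype.card P * (Fintype.card Θ + 1) * K :=
    ⟨_, rfl⟩
  have hJ : (1 : ℤ) ≤ Fintype.card J := by exact_mod_cast Fintype.card_pos
  have hP : (0 : ℤ) ≤ Fintype.card P := by positivity
  have hΘ : (0 : ℤ) ≤ Fintype.card Θ := by positivity
  have hK : (0 : ℤ) ≤ K := by positivity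
  have hR0 : 0 ≤ R := by rw [hR]; positivity
  have hR1 : (Fintype.card J : ℤ) * (Fintype.card P * (Fintype.card Θ * K)) ≤ R := by
    rw [hR]
    have : 0 ≤ (Fintype.card J : ℤ) * Fintype.card P * K := by positivity
    nlinarith
  have hR2 : (Fintype.card J : ℤ) * (Fintype.card P * K) ≤ R := by
    rw [hR]
    have : 0 ≤ (Fintype.card J : ℤ) * Fintype.card P * Fintype.card Θ * K := by positivity
    nlinarith
  have hR3 : (Fintype.card P : ℤ) * K ≤ R := by
    refine le_trans ?_ hR2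
    have : 0 ≤ (Fintype.card P : ℤ) * K := by positivity
    nlinarith
  have hR4 : R ≤ Fintype.card J * R := by nlinarith
  have htI : ∀ α l, c.tI α l ∈ Finset.Icc (-R) R := by
    intro α l
    rw [Finset.mem_Icc, ← abs_le]
    exact (core_abs_sum_le _ _ _ _ hK (Finset.card_le_univ _) fun p => hfI _ _ _ _).trans hR3
  have hdep : ∀ (x : J → P → O) (l : E × Bt), |∑ j, c.dep (c.X j) (x j) l.1 l.2| ≤ R := by
    intro x l
    exact (core_abs_sum_le _ _ _ _ (by positivity) (Finset.card_le_univ _)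
      fun j => c.dep_le K hdI _ _ _ _).trans hR1
  have hta : ∀ α (l : E × Bt), -∑ j, c.dep (c.X j) α l.1 l.2 ∈ Finset.Icc (-R) R := by
    intro α l
    rw [Finset.mem_Icc, ← abs_le, abs_neg]
    exact hdep (fun _ => α) l
  let Ω : Type := (P → O) × (Φ × G → Finset.Icc (-R) R) × (E × Bt → Finset.Icc (-R) R)
  let emb : Ω → Opt P E Φ O Bt G := fun o => (o.1, fun l => (o.2.1 l : ℤ), fun l => (o.2.2 l : ℤ))
  let T : (P → O) → Ω := fun α => (α, fun l => ⟨c.tI α l, htI α l⟩, fun l => ⟨_, hta α l⟩)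
  have hT : ∀ α, emb (T α) = c.tgt α := fun α => rfl
  obtain ⟨η, hη⟩ := lex_stages (V := (J → Ω) × (P → O)) c.rk c.rk_inj
    (fun u => c.Valid fun j => emb (u.1 j))
    (fun s u => c.SC s (fun j => emb (u.1 j)) u.2 - c.SC s (fun _ => c.tgt u.2) u.2)
    (fun s u => c.Ag s (fun j => emb (u.1 j)) u.2)
    (fun s u hu h => c.stage s _ _ hu h)
  let bf : J → (P → O) → ℝ := fun j x => ∑ s, η ^ c.rk s * c.bS s j x
  let g : J → Ω → (E × Bt) ⊕ (Φ × G) → ℤ := fun j o l =>
    Sum.elim (c.gE j (emb o)) (c.gF j (emb o)) l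
  have hval : ∀ w : J → Ω, (∀ l, ∑ j, g j (w j) l = 0) ↔ c.Valid fun j => emb (w j) := by
    intro w
    constructor
    · intro h
      exact ⟨fun l => h (Sum.inl l), fun l => h (Sum.inr l)⟩
    · rintro h (l | l)
      · exact h.1 l
      · exact h.2 l
  have hcost : ∀ (α : P → O) (w : J → Ω),
      ∑ j, (∑ s, η ^ c.rk s * c.cS s j (emb (w j)) - c.lam α * bf j (w j).1) =
        ∑ s, η ^ c.rk s * c.SC s (fun j => emb (w j)) α := by
    intro α w
    simp only [SC, bf, Finset.mul_sum, ← Finset.sum_sub_distrib]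
    rw [Finset.sum_comm]
    refine Finset.sum_congr rfl fun s _ => Finset.sum_congr rfl fun j _ => ?_
    ring
  have main := trop2 (J := J) (Ω := Ω) (D := (E × Bt) ⊕ (Φ × G)) (A := P → O)
    (S := P → Option O) (Fintype.card O ^ s)
    (2 * Fintype.card J ^ 2 * Fintype.card P * (Fintype.card Θ + 1) * K)
    (fun j o => ∑ s, η ^ c.rk s * c.cS s j (emb o)) (fun j o => bf j o.1) ?_ g ?_ c.lam
    (fun α _ => T α) (fun α => (hval fun _ => T α).2 (c.tgt_valid α))
    (fun j o p => if c.home p = j then some (o.1 p) else none) ?_ ?_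
  · simpa only [Fintype.card_sum, Fintype.card_prod, Fintype.card_fun] using main
  · intro j
    let ext : (c.X j → O) → P → O := fun x p =>
      if h : p ∈ c.X j then x ⟨p, h⟩ else Classical.arbitrary O
    refine ⟨Finset.univ.image fun x => bf j (ext x), ?_, fun o => ?_⟩
    · refine Finset.card_image_le.trans ?_
      rw [Finset.card_univ, Fintype.card_fun, Fintype.card_coe]
      exact Nat.pow_le_pow_right Fintype.card_pos (hs j)
    · refine Finset.mem_image.2 ⟨fun p => o.1 p, Finset.mem_univ _, ?_⟩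
      refine Finset.sum_congr rfl fun s _ => ?_
      rcases s with q | q
      · by_cases hq : q ∈ c.X j <;> simp [bS, ext, hq]
      · rfl
  · have hB : ((2 * Fintype.card J ^ 2 * Fintype.card P * (Fintype.card Θ + 1) * K : ℕ) : ℤ) =
        Fintype.card J * R + Fintype.card J * R := by
      rw [hR]; push_cast; ring
    rw [hB]
    rintro w (l | l)
    · simp only [g, Sum.elim_inl, gE, Finset.sum_add_distrib]
      refine (abs_add_le _ _).trans (add_le_add ((hdep _ l).trans hR4) ?_)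
      rw [Finset.sum_ite_eq]
      simp only [Finset.mem_univ, if_true]
      have := ((w (c.ab l.1)).2.2 l).2
      rw [Finset.mem_Icc, ← abs_le] at this
      exact this.trans hR4
    · simp only [g, Sum.elim_inr, gF, Finset.sum_sub_distrib, ← Finset.mul_sum]
      rw [c.sum_home fun j p => c.fI l.1 p ((emb (w j)).1 p) l.2]
      refine (abs_sub _ _).trans (add_le_add ?_ ?_)
      · rw [abs_mul, abs_of_nonneg (by positivity : (0 : ℤ) ≤ Fintype.card J)]
        refine mul_le_mul_of_nonneg_left ?_ (by positivity)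
        exact (core_abs_sum_le _ _ _ _ hK (Finset.card_le_univ _) fun p => hfI _ _ _ _).trans hR3
      · refine core_abs_sum_le _ _ _ _ hR0 (Finset.card_le_univ _) fun j => ?_
        have := ((w j).2.1 l).2
        rwa [Finset.mem_Icc, ← abs_le] at this
  · intro α α' h
    funext p
    have := congrFun (h (c.home p)) p
    simpa [T] using this
  · intro α w hw hle j
    have h1 := hη (w, α) ((hval w).1 hw) (by
      rw [hcost α w, hcost α fun _ => T α] at hle
      simp only [hT] at hle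
      simp only [mul_sub, Finset.sum_sub_distrib]
      linarith)
    funext p
    split_ifs with hp
    · have := h1 (Sum.inl p) j (hp ▸ c.home_mem p)
      exact congrArg some this
    · rfl

end CoreData

/-- Part C, first layer: integer deposits and a price identity give real roots. -/
theorem core {P J Θ E Φ O Bt G : Type} [Fintype P] [DecidableEq P] [Fintype J] [Nonempty J]
    [Fintype Θ] [Fintype E] [Fintype Φ] [Fintype O] [Nonempty O] [Fintype Bt] [Fintype G]
    (ex : P → ℕ) (ex_inj : Function.Injective ex) (home : P → J) (X : J → Finset P)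
    (home_mem : ∀ p, p ∈ X (home p)) (s : ℕ) (hs : ∀ j, (X j).card ≤ s)
    (ch : P → Θ → E) (ch_inj : ∀ p, Function.Injective (ch p)) (ab : E → J)
    (Need : P → Θ → P → Prop)
    (clos1 : ∀ j p q θ θ', p ∈ X j → ex p < ex q → ch q θ' = ch p θ →
      ∀ p', Need q θ' p' → p' ∈ X j)
    (clos2 : ∀ q θ' p', Need q θ' p' → p' ∈ X (ab (ch q θ')))
    (cf : Φ → P → ℂ) (top : Φ → P) (top_le : ∀ f p, cf f p ≠ 0 → ex (top f) ≤ ex p)
    (τ β : O → ℝ) (M : P → ℝ) (Q : P → O → ℝ)
    (hQ : ∀ (α : P → O) (q : P) (x : O), x ≠ α q →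
      Q q (α q) - β (α q) * (∑ p ∈ Finset.univ.filter (fun p => ex p ≤ ex q), M p * τ (α p))
        < Q q x - β x * (∑ p ∈ Finset.univ.filter (fun p => ex p ≤ ex q), M p * τ (α p)))
    (K : ℕ) (dI : Θ → O → Bt → ℤ) (ε : Bt → ℂ) (hdI : ∀ θ o b, |dI θ o b| ≤ K)
    (fI : Φ → P → O → G → ℤ) (γ : G → ℂ) (hfI : ∀ f p o g, |fI f p o g| ≤ K)
    (hf1 : ∀ f p o, ∑ g, (fI f p o g : ℂ) * γ g = cf f p * (τ o : ℂ))
    (hf0 : ∀ f p, cf f p = 0 → ∀ o g, fI f p o g = 0)
    (Λ : Θ → ℂ) (Y : Θ → P → ℂ)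
    (hΛ : ∀ o p, ∑ θ, Λ θ * (∑ b, (dI θ o b : ℂ) * ε b) * Y θ p = (β o : ℂ) * (M p : ℂ))
    (hκ : ∀ q θ, ∃ κ : Φ → ℂ, (∀ f, κ f ≠ 0 → ex q < ex (top f)) ∧
      ∀ p, ex q < ex p → Y θ p ≠ ∑ f, κ f * cf f p → Need q θ p) :
    HasRoots ((2 * (2 * Fintype.card J ^ 2 * Fintype.card P * (Fintype.card Θ + 1) * K) + 1) ^
        (Fintype.card E * Fintype.card Bt + Fintype.card Φ * Fintype.card G))
      (Fintype.card J) (Fintype.card O ^ s) ((Fintype.card O ^ Fintype.card P - 1) / 2) := by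
  choose κ hκ1 hκ2 using hκ
  exact CoreData.roots
    { ex := ex, ex_inj := ex_inj, home := home, X := X, home_mem := home_mem, ch := ch,
      ch_inj := ch_inj, ab := ab, Need := Need, clos1 := clos1, clos2 := clos2, cf := cf,
      top := top, top_le := top_le, τ := τ, β := β, M := M, Q := Q, hQ := hQ, dI := dI, ε := ε,
      fI := fI, γ := γ, hf1 := hf1, hf0 := hf0, Λ := Λ, Y := Y, hΛ := hΛ, κ := κ, hκ1 := hκ1,
      hκ2 := hκ2 } s hs K hdI hfI

end Pool.Agent.Work.MP_97f157_lc_C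
end

-- merged part: Pool.Agent.Work.MP_97f157_lc_C.NumField
section
set_option autoImplicit false

open Finset

namespace Pool.Agent.Work.MP_97f157_lc_C

private theorem numField_re {z : ℂ} (hz : IsIntegral ℚ z) : IsIntegral ℚ z.re := by
  have h1 : IsIntegral ℚ ((starRingEnd ℂ) z) := hz.map (starRingEnd ℂ).toRatAlgHom
  have h2 : IsIntegral ℚ ((1 / 2 : ℚ) • (z + (starRingEnd ℂ) z)) := (hz.add h1).smul _
  have h3 : (1 / 2 : ℚ) • (z + (starRingEnd ℂ) z) = Complex.ofRealHom.toRatAlgHom z.re := by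
    rw [Complex.add_conj, Rat.smul_def]
    change _ = ((z.re : ℝ) : ℂ)
    push_cast
    ring
  rw [h3] at h2
  exact (isIntegral_algHom_iff _ Complex.ofReal_injective).1 h2

private theorem numField_im {z : ℂ} (hz : IsIntegral ℚ z) : IsIntegral ℚ z.im := by
  have hI : IsIntegral ℚ Complex.I := by
    refine IsIntegral.of_pow (n := 2) (by norm_num) ?_
    rw [Complex.I_sq]
    exact isIntegral_one.neg
  have h := numField_re (hz.mul hI.neg)
  simpa using h

/-- Part NF: integer coordinates for finitely many algebraic multipliers. -/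
theorem numfield {ι : Type} [Finite ι] (c : ι → ℂ) (hc : ∀ i, IsAlgebraic ℚ (c i)) :
    ∃ (ρ : ℕ) (ω : Fin ρ → ℝ) (ε : Fin ρ ⊕ Fin ρ → ℂ) (n : ι → Fin ρ → Fin ρ ⊕ Fin ρ → ℤ),
      0 < ρ ∧ (∀ u : Fin ρ → ℤ, ∑ a, (u a : ℝ) * ω a = 0 → ∀ a, u a = 0) ∧
      (∀ i a, c i * (ω a : ℂ) = ∑ b, (n i a b : ℂ) * ε b) ∧
      (∀ i, c i = 0 → ∀ a b, n i a b = 0) := by
  classical
  let g : ι ⊕ ι → ℝ := Sum.elim (fun i => (c i).re) (fun i => (c i).im)
  have hg : ∀ x ∈ Set.range g, IsIntegral ℚ x := by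
    rintro x ⟨i | i, rfl⟩
    · exact numField_re (hc i).isIntegral
    · exact numField_im (hc i).isIntegral
  have hfin : Finite (Set.range g) := (Set.finite_range g).to_subtype
  let F : IntermediateField ℚ ℝ := IntermediateField.adjoin ℚ (Set.range g)
  have hF : FiniteDimensional ℚ F := IntermediateField.finiteDimensional_adjoin hg
  let B := Module.finBasis ℚ F
  let G : ι ⊕ ι → F := fun s => ⟨g s, IntermediateField.subset_adjoin ℚ _ ⟨s, rfl⟩⟩
  let r : (ι ⊕ ι) × Fin (Module.finrank ℚ F) × Fin (Module.finrank ℚ F) → ℚ :=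
    fun x => B.repr (G x.1 * B x.2.1) x.2.2
  obtain ⟨d, hd⟩ := IsLocalization.exist_integer_multiples_of_finite (nonZeroDivisors ℤ) r
  choose N hN using hd
  have hd0 : ((d : ℤ) : ℝ) ≠ 0 := by exact_mod_cast nonZeroDivisors.coe_ne_zero d
  have hN' : ∀ x, (N x : ℚ) = ((d : ℤ) : ℚ) * r x := fun x => by
    have := hN x
    simpa using this
  have key : ∀ s a, g s * (B a : ℝ) = ∑ b, (N (s, a, b) : ℝ) * ((B b : ℝ) / ((d : ℤ) : ℝ)) := by
    intro s a
    have h1 := congrArg (fun x : F => (x : ℝ)) (B.sum_repr (G s * B a))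
    simp only [IntermediateField.coe_sum, IntermediateField.coe_smul,
      IntermediateField.coe_mul] at h1
    refine h1.symm.trans (Finset.sum_congr rfl fun b _ => ?_)
    have h2 : (N (s, a, b) : ℝ) = ((d : ℤ) : ℝ) * (r (s, a, b) : ℝ) := by
      exact_mod_cast congrArg (fun q : ℚ => (q : ℝ)) (hN' (s, a, b))
    rw [h2, Rat.smul_def]
    change (r (s, a, b) : ℝ) * _ = _
    field_simp
  refine ⟨Module.finrank ℚ F, fun a => (B a : ℝ),
    Sum.elim (fun b => (((B b : ℝ) / ((d : ℤ) : ℝ) : ℝ) : ℂ))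
      (fun b => (((B b : ℝ) / ((d : ℤ) : ℝ) : ℝ) : ℂ) * Complex.I),
    fun i a => Sum.elim (fun b => N (Sum.inl i, a, b)) (fun b => N (Sum.inr i, a, b)),
    Module.finrank_pos, ?_, ?_, ?_⟩
  · intro u hu a
    have h1 : ∑ a, (u a : ℚ) • B a = 0 := by
      apply Subtype.ext
      simp only [IntermediateField.coe_sum, IntermediateField.coe_smul, Rat.smul_def]
      simpa using hu
    have := Fintype.linearIndependent_iff.1 B.linearIndependent (fun a => (u a : ℚ)) h1 a
    exact_mod_cast this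
  · intro i a
    have h1 := congrArg (fun x : ℝ => (x : ℂ)) (key (Sum.inl i) a)
    have h2 := congrArg (fun x : ℝ => (x : ℂ)) (key (Sum.inr i) a)
    simp only [g, Sum.elim_inl, Sum.elim_inr, Complex.ofReal_mul, Complex.ofReal_sum,
      Complex.ofReal_intCast] at h1 h2
    rw [Fintype.sum_sum_type]
    simp only [Sum.elim_inl, Sum.elim_inr, ← mul_assoc]
    rw [← Finset.sum_mul, ← h1, ← h2]
    conv_lhs => rw [← Complex.re_add_im (c i)]
    ring
  · intro i hi a b
    have h0 : ∀ s, g s = 0 → ∀ b, N (s, a, b) = 0 := by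
      intro s hs b
      have hG : G s = 0 := Subtype.ext hs
      have h1 := hN' (s, a, b)
      simp only [r, hG, zero_mul, map_zero, Finsupp.coe_zero, Pi.zero_apply, mul_zero] at h1
      exact_mod_cast h1
    rcases b with b | b
    · exact h0 (Sum.inl i) (by simp [g, hi]) b
    · exact h0 (Sum.inr i) (by simp [g, hi]) b

/-- The final arithmetic. -/
theorem not_tau_of
    (h : ∀ C : ℕ, ∃ a b T m K : ℕ, C * (a + b) < T ∧
      ∀ w : ℕ, 0 < w → HasRoots ((K * w + 1) ^ a) m (w ^ b) ((w ^ T - 1) / 2)) :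
    ¬ (∃ c : ℕ, ∀ (k m t : ℕ) (F : Fin k → Fin m → Polynomial ℝ),
      (∀ i j, (F i j).support.card ≤ t) →
      (∑ i, ∏ j, F i j) ≠ 0 →
      (∑ i, ∏ j, F i j).roots.toFinset.card ≤ (k * m * t + 2) ^ c) := by
  rintro ⟨c, hc⟩
  obtain ⟨a, b, T, m, K, hT, hw⟩ := h c
  obtain ⟨Q, hQ⟩ : ∃ Q, Q = ((K + 1) ^ a * m + 2) ^ c := ⟨_, rfl⟩
  obtain ⟨w, hw'⟩ : ∃ w, w = 2 * Q + 4 := ⟨_, rfl⟩
  have hw0 : 0 < w := by omega
  obtain ⟨F, h1, h2, h3⟩ := hw w hw0
  have h4 := h3.trans (hc _ _ _ F h1 h2)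
  have h5 : (K * w + 1) ^ a ≤ (K + 1) ^ a * w ^ a := by
    rw [← mul_pow]
    exact Nat.pow_le_pow_left (by nlinarith) a
  have h6 : 1 ≤ w ^ (a + b) := Nat.one_le_pow _ _ hw0
  have h7 : (K * w + 1) ^ a * m * w ^ b + 2 ≤ ((K + 1) ^ a * m + 2) * w ^ (a + b) := by
    have h8 : (K * w + 1) ^ a * m * w ^ b ≤ (K + 1) ^ a * w ^ a * m * w ^ b :=
      Nat.mul_le_mul_right _ (Nat.mul_le_mul_right _ h5)
    have h9 : (K + 1) ^ a * w ^ a * m * w ^ b = (K + 1) ^ a * m * w ^ (a + b) := by ring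
    rw [add_mul]
    omega
  have h10 : ((K * w + 1) ^ a * m * w ^ b + 2) ^ c ≤ Q * w ^ (c * (a + b)) := by
    rw [hQ, mul_comm c, pow_mul, ← mul_pow]
    exact Nat.pow_le_pow_left h7 c
  have h11 : w ^ (c * (a + b)) * w ≤ w ^ T := by
    rw [← pow_succ]
    exact Nat.pow_le_pow_right hw0 hT
  have h12 : 1 ≤ w ^ (c * (a + b)) := Nat.one_le_pow _ _ hw0
  have h13 := h4.trans h10
  obtain ⟨y, hy⟩ : ∃ y, y = w ^ (c * (a + b)) := ⟨_, rfl⟩
  rw [← hy] at h11 h12 h13
  have h14 : y * w = 2 * (Q * y) + 4 * y := by rw [hw']; ring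
  omega

end Pool.Agent.Work.MP_97f157_lc_C
end

-- merged part: Pool.Agent.Work.MP_97f157_lc_C.DesignRoots
section
set_option autoImplicit false

open Finset

namespace Pool.Agent.Work.MP_97f157_lc_C

/-- Integer coordinates of a digit vector are bounded. -/
theorem DesignRoots_bound {ρ w nm : ℕ} (g : Fin ρ → Fin w) (m : Fin ρ → ℤ)
    (hm : ∀ a, |m a| ≤ nm) : |∑ a, ((g a : ℕ) : ℤ) * m a| ≤ ((ρ * nm * w : ℕ) : ℤ) := by
  calc |∑ a, ((g a : ℕ) : ℤ) * m a| ≤ ∑ a, |((g a : ℕ) : ℤ) * m a| :=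
        Finset.abs_sum_le_sum_abs _ _
    _ ≤ ∑ _a : Fin ρ, (nm : ℤ) * (w : ℤ) := by
        refine Finset.sum_le_sum fun a _ => ?_
        rw [abs_mul, mul_comm]
        have h1 : |((g a : ℕ) : ℤ)| ≤ (w : ℤ) := by
          rw [abs_of_nonneg (Int.natCast_nonneg _)]
          exact_mod_cast (g a).2.le
        exact mul_le_mul (hm a) h1 (abs_nonneg _) (Int.natCast_nonneg _)
    _ = ((ρ * nm * w : ℕ) : ℤ) := by
        rw [Finset.sum_const, Finset.card_univ, Fintype.card_fin, nsmul_eq_mul]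
        push_cast
        ring

/-- Integer coordinates of a digit vector represent the multiplied value. -/
theorem DesignRoots_coord {ρ w : ℕ} {B : Type} [Fintype B] (g : Fin ρ → Fin w) (ω : Fin ρ → ℝ)
    (ε : B → ℂ) (c : ℂ) (m : Fin ρ → B → ℤ)
    (hm : ∀ a, c * (ω a : ℂ) = ∑ b, (m a b : ℂ) * ε b) :
    ∑ b, ((∑ a, ((g a : ℕ) : ℤ) * m a b : ℤ) : ℂ) * ε b
      = c * ((∑ a, ((g a : ℕ) : ℝ) * ω a : ℝ) : ℂ) := by
  push_cast
  simp_rw [Finset.sum_mul]
  rw [Finset.sum_comm, Finset.mul_sum]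
  refine Finset.sum_congr rfl fun a _ => ?_
  rw [mul_left_comm, hm a, Finset.mul_sum]
  refine Finset.sum_congr rfl fun b _ => ?_
  ring

/-- Part C, second layer: a design gives real roots for every digit size `w`. -/
theorem design_roots {P J Θ Z E Φ : Type} [Fintype P] [Fintype J] [Nonempty J]
    [Fintype Θ] [Fintype Z] [Fintype E] [Fintype Φ] (𝒟 : Design P J Θ Z E Φ)
    (s : ℕ) (hs : ∀ j, (𝒟.X j).card ≤ s) :
    ∃ ρ K : ℕ, 0 < ρ ∧ ∀ w : ℕ, 0 < w →
      HasRoots ((K * w + 1) ^ (ρ * (2 * (Fintype.card E + Fintype.card Φ * Fintype.card Z))))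
        (Fintype.card J) (w ^ (ρ * (Fintype.card Z * s)))
        ((w ^ (ρ * (Fintype.card Z * Fintype.card P)) - 1) / 2) := by
  classical
  obtain ⟨ρ, ω, ε, n, hρ, hind, hmul, hzero⟩ :=
    numfield (ι := (Θ × Z) ⊕ (Φ × P))
      (Sum.elim (fun x => 𝒟.U x.1 x.2) (fun x => 𝒟.cf x.1 x.2))
      (by
        rintro (x | x)
        · exact 𝒟.U_alg _ _
        · exact 𝒟.cf_alg _ _)
  obtain ⟨nm, hnm⟩ : ∃ nm : ℕ, ∀ i a b, |n i a b| ≤ nm := by
    refine ⟨(Finset.univ : Finset (((Θ × Z) ⊕ (Φ × P)) × Fin ρ × (Fin ρ ⊕ Fin ρ))).sup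
      (fun x => (n x.1 x.2.1 x.2.2).natAbs), fun i a b => ?_⟩
    have h := Finset.le_sup
      (f := fun x : ((Θ × Z) ⊕ (Φ × P)) × Fin ρ × (Fin ρ ⊕ Fin ρ) => (n x.1 x.2.1 x.2.2).natAbs)
      (Finset.mem_univ (i, a, b))
    rw [Int.abs_eq_natAbs]
    exact_mod_cast h
  refine ⟨ρ, 2 * (2 * Fintype.card J ^ 2 * Fintype.card P * (Fintype.card Θ + 1) *
    ((Fintype.card Z + 1) * (ρ * nm))), hρ, fun w hw => ?_⟩
  obtain ⟨dv, hdv_def⟩ : ∃ dv : (Fin ρ → Fin w) → ℝ,
      ∀ g, dv g = ∑ a, ((g a : ℕ) : ℝ) * ω a := ⟨_, fun _ => rfl⟩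
  have hdv : Function.Injective dv := by
    intro g g' h
    rw [hdv_def, hdv_def] at h
    have h0 := hind (fun a => ((g a : ℕ) : ℤ) - ((g' a : ℕ) : ℤ)) (by
      push_cast
      simp_rw [sub_mul]
      rw [Finset.sum_sub_distrib, h, sub_self])
    funext a
    have h1 := h0 a
    apply Fin.ext
    have h2 : ((g a : ℕ) : ℤ) = ((g' a : ℕ) : ℤ) := sub_eq_zero.mp h1
    exact_mod_cast h2
  obtain ⟨w₀, W, Q, hQ⟩ := scales 𝒟.ex 𝒟.ex_inj 𝒟.e 𝒟.e_inj dv hdv
  obtain ⟨Λ, Y, hI, hκ⟩ := 𝒟.interp W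
  have : Nonempty (Fin w) := ⟨⟨0, hw⟩⟩
  have hle : ((ρ * nm * w : ℕ) : ℤ) ≤ (((Fintype.card Z + 1) * (ρ * nm * w) : ℕ) : ℤ) := by
    exact_mod_cast Nat.le_mul_of_pos_left _ (Nat.succ_pos _)
  have key := core (O := Z → Fin ρ → Fin w) (Bt := Fin ρ ⊕ Fin ρ) (G := Z × (Fin ρ ⊕ Fin ρ))
    𝒟.ex 𝒟.ex_inj 𝒟.home 𝒟.X 𝒟.home_mem s hs 𝒟.ch 𝒟.ch_inj 𝒟.ab 𝒟.Need 𝒟.clos1 𝒟.clos2
    𝒟.cf 𝒟.top 𝒟.top_le
    (fun o => ∑ z, w₀ ^ 𝒟.e z * dv (o z)) (fun o => ∑ z, W ^ 𝒟.e z * dv (o z))
    (fun p => W ^ 𝒟.ex p) (fun q x => W ^ 𝒟.ex q * Q x) hQ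
    ((Fintype.card Z + 1) * (ρ * nm * w))
    (fun θ o b => ∑ z, ∑ a, ((o z a : ℕ) : ℤ) * n (Sum.inl (θ, z)) a b) ε
    (by
      intro θ o b
      calc |∑ z, ∑ a, ((o z a : ℕ) : ℤ) * n (Sum.inl (θ, z)) a b|
          ≤ ∑ z, |∑ a, ((o z a : ℕ) : ℤ) * n (Sum.inl (θ, z)) a b| :=
            Finset.abs_sum_le_sum_abs _ _
        _ ≤ ∑ _z : Z, ((ρ * nm * w : ℕ) : ℤ) :=
            Finset.sum_le_sum fun z _ => DesignRoots_bound (o z) _ (fun a => hnm _ a b)
        _ = ((Fintype.card Z * (ρ * nm * w) : ℕ) : ℤ) := by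
            rw [Finset.sum_const, Finset.card_univ, nsmul_eq_mul]
            push_cast
            ring
        _ ≤ (((Fintype.card Z + 1) * (ρ * nm * w) : ℕ) : ℤ) := by
            exact_mod_cast Nat.mul_le_mul_right _ (Nat.le_succ _))
    (fun f p o g => ∑ a, ((o g.1 a : ℕ) : ℤ) * n (Sum.inr (f, p)) a g.2)
    (fun g => ((w₀ ^ 𝒟.e g.1 : ℝ) : ℂ) * ε g.2)
    (by
      intro f p o g
      exact (DesignRoots_bound (o g.1) _ (fun a => hnm _ a g.2)).trans hle)
    (by
      intro f p o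
      rw [Fintype.sum_prod_type]
      have h1 : ∀ z, ∑ b, ((∑ a, ((o z a : ℕ) : ℤ) * n (Sum.inr (f, p)) a b : ℤ) : ℂ) *
          (((w₀ ^ 𝒟.e z : ℝ) : ℂ) * ε b)
          = 𝒟.cf f p * ((w₀ ^ 𝒟.e z * dv (o z) : ℝ) : ℂ) := by
        intro z
        have h2 := DesignRoots_coord (o z) ω ε (𝒟.cf f p) (n (Sum.inr (f, p)))
          (fun a => hmul (Sum.inr (f, p)) a)
        rw [← hdv_def] at h2
        rw [Complex.ofReal_mul, mul_left_comm, ← h2, Finset.mul_sum]
        refine Finset.sum_congr rfl fun b _ => ?_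
        ring
      simp only [h1]
      rw [← Finset.mul_sum, Complex.ofReal_sum])
    (by
      intro f p h o g
      have h1 := hzero (Sum.inr (f, p)) h
      simp [h1])
    Λ Y
    (by
      intro o p
      have h1 : ∀ θ, ∑ b, ((∑ z, ∑ a, ((o z a : ℕ) : ℤ) * n (Sum.inl (θ, z)) a b : ℤ) : ℂ) * ε b
          = ∑ z, 𝒟.U θ z * ((dv (o z) : ℝ) : ℂ) := by
        intro θ
        simp only [Int.cast_sum (s := (Finset.univ : Finset Z)), Finset.sum_mul]
        rw [Finset.sum_comm]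
        refine Finset.sum_congr rfl fun z _ => ?_
        have h2 := DesignRoots_coord (o z) ω ε (𝒟.U θ z) (n (Sum.inl (θ, z)))
          (fun a => hmul (Sum.inl (θ, z)) a)
        rw [← hdv_def] at h2
        exact h2
      simp only [h1]
      have h3 : ∀ θ, Λ θ * (∑ z, 𝒟.U θ z * ((dv (o z) : ℝ) : ℂ)) * Y θ p
          = ∑ z, ((dv (o z) : ℝ) : ℂ) * (Λ θ * 𝒟.U θ z * Y θ p) := by
        intro θ
        rw [Finset.mul_sum, Finset.sum_mul]
        refine Finset.sum_congr rfl fun z _ => ?_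
        ring
      simp only [h3]
      rw [Finset.sum_comm]
      push_cast
      rw [Finset.sum_mul]
      refine Finset.sum_congr rfl fun z _ => ?_
      rw [← Finset.mul_sum, hI z p]
      ring)
    hκ
  have hO : Fintype.card (Z → Fin ρ → Fin w) = w ^ (ρ * Fintype.card Z) := by
    rw [Fintype.card_fun, Fintype.card_fun, Fintype.card_fin, Fintype.card_fin, pow_mul]
  rw [hO, Fintype.card_prod, Fintype.card_sum, Fintype.card_fin, ← pow_mul, ← pow_mul] at key
  have e1 : 2 * (2 * Fintype.card J ^ 2 * Fintype.card P * (Fintype.card Θ + 1) *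
      ((Fintype.card Z + 1) * (ρ * nm * w))) =
      2 * (2 * Fintype.card J ^ 2 * Fintype.card P * (Fintype.card Θ + 1) *
        ((Fintype.card Z + 1) * (ρ * nm))) * w := by ring
  have e2 : Fintype.card E * (ρ + ρ) + Fintype.card Φ * (Fintype.card Z * (ρ + ρ)) =
      ρ * (2 * (Fintype.card E + Fintype.card Φ * Fintype.card Z)) := by ring
  rw [e1, e2, mul_assoc ρ, mul_assoc ρ] at key
  exact key

end Pool.Agent.Work.MP_97f157_lc_C
end

-- merged part: Pool.Agent.Work.MP_97f157_lc_C.Cube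
section
set_option autoImplicit false

open Finset

namespace Pool.Agent.Work.MP_97f157_lc_C

private theorem cube_var {α : Type} [DecidableEq α] (s : Finset α) :
    ∑ S ∈ s.powerset, ((s.card : ℤ) - 2 * S.card) ^ 2 = (s.card : ℤ) * 2 ^ s.card := by
  induction s using Finset.induction_on with
  | empty => simp
  | insert a s ha ih =>
    rw [Finset.sum_powerset_insert ha, card_insert_of_notMem ha, ← Finset.sum_add_distrib]
    have h : ∀ S ∈ s.powerset, (((s.card + 1 : ℕ) : ℤ) - 2 * S.card) ^ 2 +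
        (((s.card + 1 : ℕ) : ℤ) - 2 * (insert a S).card) ^ 2 =
        2 * ((s.card : ℤ) - 2 * S.card) ^ 2 + 2 := by
      intro S hS
      rw [card_insert_of_notMem fun h => ha (mem_powerset.1 hS h)]
      push_cast
      ring
    rw [Finset.sum_congr rfl h, Finset.sum_add_distrib, ← Finset.mul_sum, ih, Finset.sum_const,
      card_powerset, nsmul_eq_mul]
    push_cast
    ring

/-- Chebyshev bound for the lower tail. -/
theorem lowCount_le (k e : ℕ) : 4 * e ^ 2 * lowCount k e ≤ k * 2 ^ k := by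
  have h := cube_var (Finset.univ : Finset (Fin k))
  rw [Finset.powerset_univ, card_univ, Fintype.card_fin] at h
  have h1 : ∑ _S ∈ Finset.univ.filter (fun S : Finset (Fin k) => 2 * S.card + 2 * e ≤ k),
      (4 * (e : ℤ) ^ 2) ≤ ∑ S : Finset (Fin k), ((k : ℤ) - 2 * S.card) ^ 2 := by
    refine (Finset.sum_le_sum fun S hS => ?_).trans
      (Finset.sum_le_sum_of_subset_of_nonneg (filter_subset _ _) fun _ _ _ => sq_nonneg _)
    have h2 : (2 : ℤ) * e ≤ k - 2 * S.card := by
      have := (mem_filter.1 hS).2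
      omega
    have h3 := pow_le_pow_left₀ (by positivity) h2 2
    linarith
  rw [Finset.sum_const, nsmul_eq_mul, h] at h1
  have h4 : ((4 * e ^ 2 * lowCount k e : ℕ) : ℤ) ≤ ((k * 2 ^ k : ℕ) : ℤ) := by
    unfold lowCount
    push_cast
    linarith
  exact_mod_cast h4

/-- Hamming balls of radius below the middle. -/
theorem ball_le (k e r : ℕ) (h : 2 * r + 2 * e ≤ k) (y : Finset (Fin k)) :
    (Finset.univ.filter fun x : Finset (Fin k) => (symmDiff x y).card ≤ r).card
      ≤ lowCount k e := by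
  refine Finset.card_le_card_of_injOn (fun x => symmDiff x y) (fun x hx => ?_)
    (symmDiff_left_injective y).injOn
  have := (mem_filter.1 (mem_coe.1 hx)).2
  exact mem_coe.2 (mem_filter.2 ⟨mem_univ _, by dsimp only; omega⟩)

/-- The sign of a coordinate. -/
private def cubeSg {k : ℕ} (x : Finset (Fin k)) (i : Fin k) : ℚ := if i ∈ x then -1 else 1

/-- The characters of the cube. -/
private def cubeChi {k : ℕ} (ξ x : Finset (Fin k)) : ℚ := ∏ i ∈ ξ, cubeSg x i

private theorem cube_orth {k : ℕ} (η x y : Finset (Fin k)) :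
    ∑ ξ, cubeChi ξ η * (cubeChi ξ x * cubeChi ξ y) =
      2 ^ k * if symmDiff x y = η then 1 else 0 := by
  have h : ∑ ξ, cubeChi ξ η * (cubeChi ξ x * cubeChi ξ y) =
      ∏ i, (1 + cubeSg η i * (cubeSg x i * cubeSg y i)) := by
    rw [Finset.prod_one_add, Finset.powerset_univ]
    refine Finset.sum_congr rfl fun ξ _ => ?_
    simp only [cubeChi, Finset.prod_mul_distrib]
  rw [h]
  split_ifs with hη
  · rw [Finset.prod_congr rfl (g := fun _ => (2 : ℚ)) fun i _ => ?_]
    · simp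
    · subst hη
      by_cases hx : i ∈ x <;> by_cases hy : i ∈ y <;>
        simp [cubeSg, Finset.mem_symmDiff, hx, hy] <;> norm_num
  · obtain ⟨i, hi⟩ : ∃ i, ¬ (i ∈ symmDiff x y ↔ i ∈ η) :=
      not_forall.1 fun h => hη (Finset.ext h)
    rw [mul_zero]
    refine Finset.prod_eq_zero (mem_univ i) ?_
    by_cases hx : i ∈ x <;> by_cases hy : i ∈ y <;> by_cases hz : i ∈ η <;>
      simp [cubeSg, Finset.mem_symmDiff, hx, hy, hz] at hi ⊢

private theorem cube_expand {k : ℕ} (ξ x : Finset (Fin k)) :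
    cubeChi ξ x = ∑ S ∈ ξ.powerset, (-2 : ℚ) ^ S.card * if S ⊆ x then 1 else 0 := by
  have h : ∀ i, cubeSg x i = 1 + if i ∈ x then -2 else 0 := fun i => by
    unfold cubeSg
    split_ifs <;> norm_num
  simp only [cubeChi, h]
  rw [Finset.prod_one_add]
  refine Finset.sum_congr rfl fun S _ => ?_
  split_ifs with hS
  · rw [Finset.prod_congr rfl (g := fun _ => (-2 : ℚ)) fun i hi => if_pos (hS hi)]
    simp
  · obtain ⟨i, hi, hx⟩ := Finset.not_subset.1 hS
    rw [mul_zero]
    exact Finset.prod_eq_zero hi (if_neg hx)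

/-- The low rank family. -/
private def cubePi {k e : ℕ}
    (i : Fin 3 × {S : Finset (Fin k) // 2 * S.card + 2 * e ≤ k}) (x : Finset (Fin k)) : ℚ :=
  if i.1 = 0 then (if i.2.1 ⊆ x then 1 else 0)
  else if i.1 = 1 then (if x = i.2.1ᶜ then 1 else 0) else cubeChi i.2.1ᶜ x

private theorem cube_split {k : ℕ} (e : ℕ) (ξ : Finset (Fin k)) :
    ∃ c : Fin 3 × {S : Finset (Fin k) // 2 * S.card + 2 * e ≤ k} → ℚ,
      ∀ x, cubeChi ξ x ≠ ∑ i, c i * cubePi i x → (symmDiff x ξ).card < 4 * e := by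
  have hc : ∀ x : Finset (Fin k), k + 2 * e < 2 * x.card → 2 * xᶜ.card + 2 * e ≤ k := by
    intro x hx
    have := Finset.card_add_card_compl x
    rw [Fintype.card_fin] at this
    omega
  suffices h : ∃ p ∈ Submodule.span ℚ (Set.range (cubePi (k := k) (e := e))),
      ∀ x, cubeChi ξ x ≠ p x → (symmDiff x ξ).card < 4 * e by
    obtain ⟨p, hp, h⟩ := h
    obtain ⟨c, rfl⟩ := (Submodule.mem_span_range_iff_exists_fun ℚ).1 hp
    refine ⟨c, fun x hx => h x ?_⟩
    simpa only [Finset.sum_apply, Pi.smul_apply, smul_eq_mul] using hx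
  by_cases hξ : k + 2 * e < 2 * ξ.card
  · refine ⟨cubeChi ξ, Submodule.subset_span ⟨(2, ⟨ξᶜ, hc ξ hξ⟩), ?_⟩, fun x hx => absurd rfl hx⟩
    funext x
    simp [cubePi]
  obtain ⟨L, hL, hLx⟩ : ∃ L ∈ Submodule.span ℚ (Set.range (cubePi (k := k) (e := e))), ∀ x,
      L x = ∑ S ∈ ξ.powerset.filter (fun S => 2 * S.card + 2 * e ≤ k),
        (-2 : ℚ) ^ S.card * if S ⊆ x then 1 else 0 := by
    refine ⟨∑ S ∈ ξ.powerset.filter (fun S => 2 * S.card + 2 * e ≤ k),
      (-2 : ℚ) ^ S.card • fun x => if S ⊆ x then (1 : ℚ) else 0,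
      Submodule.sum_mem _ fun S hS => Submodule.smul_mem _ _ (Submodule.subset_span
        ⟨(0, ⟨S, (mem_filter.1 hS).2⟩), ?_⟩), fun x => ?_⟩
    · funext x
      simp [cubePi]
    · simp only [Finset.sum_apply, Pi.smul_apply, smul_eq_mul]
  refine ⟨L + ∑ z ∈ Finset.univ.filter (fun z : Finset (Fin k) => k + 2 * e < 2 * z.card),
    (cubeChi ξ z - L z) • fun x => if x = z then (1 : ℚ) else 0,
    Submodule.add_mem _ hL (Submodule.sum_mem _ fun z hz => Submodule.smul_mem _ _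
      (Submodule.subset_span ⟨(1, ⟨zᶜ, hc z (mem_filter.1 hz).2⟩), ?_⟩)), fun x hx => ?_⟩
  · funext x
    simp [cubePi]
  simp only [Pi.add_apply, Finset.sum_apply, Pi.smul_apply, smul_eq_mul, mul_ite, mul_one,
    mul_zero, Finset.sum_ite_eq, mem_filter, mem_univ, true_and] at hx
  by_cases hb : k + 2 * e < 2 * x.card
  · rw [if_pos hb] at hx
    exact absurd (by ring) hx
  rw [if_neg hb, add_zero, hLx, cube_expand, Finset.sum_filter] at hx
  obtain ⟨S, hS, hne⟩ := Finset.exists_ne_zero_of_sum_ne_zero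
    (by rw [Finset.sum_sub_distrib]; exact sub_ne_zero.2 hx :
      ∑ S ∈ ξ.powerset, (((-2 : ℚ) ^ S.card * if S ⊆ x then 1 else 0) -
        if 2 * S.card + 2 * e ≤ k then ((-2 : ℚ) ^ S.card * if S ⊆ x then 1 else 0) else 0) ≠ 0)
  have h1 : ¬ 2 * S.card + 2 * e ≤ k := fun h => hne (by rw [if_pos h, sub_self])
  have h2 : S ⊆ x := by
    by_contra h
    exact hne (by simp [h])
  have h3 : S.card ≤ (x ∩ ξ).card := card_le_card (subset_inter h2 (mem_powerset.1 hS))
  have h4 : (symmDiff x ξ).card + (x ∩ ξ).card = (x ∪ ξ).card := by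
    rw [symmDiff_eq_sup_sdiff_inf]
    exact Finset.card_sdiff_add_card_eq_card Finset.inter_subset_union
  have h5 := Finset.card_union_add_card_inter x ξ
  omega

/-- Part A0: shifted diagonals of the cube are low rank away from the diagonal. -/
theorem cube_nonrigid (k e : ℕ) :
    ∃ (I : ℕ) (π : Fin I → Finset (Fin k) → ℚ)
      (u v : Finset (Fin k) → Fin I → Finset (Fin k) → ℚ), I ≤ 3 * lowCount k e ∧
      ∀ η x y : Finset (Fin k), 8 * e < (symmDiff x y).card →
        (if symmDiff x y = η then (1 : ℚ) else 0) = ∑ i, (u η i x * π i y + π i x * v η i y) := by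
  choose c hc using cube_split (k := k) e
  obtain ⟨r, hr⟩ : ∃ r : Finset (Fin k) → Finset (Fin k) → ℚ,
      ∀ ξ x, r ξ x = cubeChi ξ x - ∑ i, c ξ i * cubePi i x := ⟨_, fun _ _ => rfl⟩
  let E := Fintype.equivFin (Fin 3 × {S : Finset (Fin k) // 2 * S.card + 2 * e ≤ k})
  refine ⟨_, fun i => cubePi (E.symm i),
    fun η i x => ∑ ξ, (2 ^ k)⁻¹ * (cubeChi ξ η * cubeChi ξ x * c ξ (E.symm i)),
    fun η i y => ∑ ξ, (2 ^ k)⁻¹ * (cubeChi ξ η * c ξ (E.symm i) * r ξ y), ?_,
    fun η x y hxy => ?_⟩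
  · rw [Fintype.card_prod, Fintype.card_fin, Fintype.card_subtype]
    exact le_rfl
  have h0 : ∀ ξ, r ξ x * r ξ y = 0 := by
    intro ξ
    by_contra h
    have h1 := hc ξ x (sub_ne_zero.1 (hr ξ x ▸ left_ne_zero_of_mul h))
    have h2 := hc ξ y (sub_ne_zero.1 (hr ξ y ▸ right_ne_zero_of_mul h))
    have h3 : (symmDiff x y).card ≤ (symmDiff x ξ ∪ symmDiff ξ y).card :=
      card_le_card (symmDiff_triangle x ξ y)
    have h4 := Finset.card_union_le (symmDiff x ξ) (symmDiff ξ y)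
    rw [symmDiff_comm] at h2
    omega
  have h2 : (2 : ℚ) ^ k ≠ 0 := by positivity
  rw [E.symm.sum_comp fun i =>
    (∑ ξ, (2 ^ k)⁻¹ * (cubeChi ξ η * cubeChi ξ x * c ξ i)) * cubePi i y +
      cubePi i x * ∑ ξ, (2 ^ k)⁻¹ * (cubeChi ξ η * c ξ i * r ξ y),
    ← inv_mul_cancel_left₀ h2 (if symmDiff x y = η then (1 : ℚ) else 0), ← cube_orth,
    Finset.mul_sum]
  simp only [Finset.sum_mul, Finset.mul_sum, ← Finset.sum_add_distrib]
  rw [Finset.sum_comm]
  refine Finset.sum_congr rfl fun ξ _ => ?_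
  have h3 : ∀ i, (2 ^ k)⁻¹ * (cubeChi ξ η * cubeChi ξ x * c ξ i) * cubePi i y +
      cubePi i x * ((2 ^ k)⁻¹ * (cubeChi ξ η * c ξ i * r ξ y)) =
      (2 ^ k)⁻¹ * cubeChi ξ η * cubeChi ξ x * (c ξ i * cubePi i y) +
        (2 ^ k)⁻¹ * cubeChi ξ η * r ξ y * (c ξ i * cubePi i x) := fun i => by ring
  simp only [h3, Finset.sum_add_distrib, ← Finset.mul_sum]
  have h4 := h0 ξ
  have h5 := hr ξ x
  have h6 := hr ξ y
  linear_combination (2 ^ k)⁻¹ * cubeChi ξ η * (h4 - cubeChi ξ x * h6 - r ξ y * h5)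

end Pool.Agent.Work.MP_97f157_lc_C
end

-- merged part: Pool.Agent.Work.MP_97f157_lc_C.Kit
section
set_option autoImplicit false

open Finset

namespace Pool.Agent.Work.MP_97f157_lc_C

/-- half of a Fermat number -/
def Kit_h (i : ℕ) : ℕ := 2 ^ (2 ^ i - 1)

theorem Kit_two_h (i : ℕ) : 2 * Kit_h i = 2 ^ 2 ^ i := by
  unfold Kit_h
  rw [← pow_succ', Nat.sub_add_cancel Nat.one_le_two_pow]

theorem Kit_fermat (i : ℕ) : Nat.fermatNumber i = 2 * Kit_h i + 1 := by
  rw [Kit_two_h]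
  rfl

theorem Kit_prod_pow (k : ℕ) : 2 * ∏ i ∈ range k, 2 * Kit_h i = 2 ^ 2 ^ k := by
  induction k with
  | zero => simp
  | succ k ih => rw [prod_range_succ, ← mul_assoc, ih, Kit_two_h, ← pow_add, pow_succ, mul_two]

theorem Kit_prod_le (k : ℕ) :
    ∏ i : Fin k, Nat.fermatNumber i ≤ 2 * ((∏ i : Fin k, Kit_h i) * 2 ^ k) := by
  have h1 := Kit_prod_pow k
  rw [prod_mul_distrib, prod_const, card_range] at h1
  rw [Fin.prod_univ_eq_prod_range (fun i => Nat.fermatNumber i) k,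
    Fin.prod_univ_eq_prod_range (fun i => Kit_h i) k, Nat.prod_fermatNumber,
    mul_comm _ (2 ^ k), h1]
  unfold Nat.fermatNumber
  omega

theorem Kit_cast_inj {h a b : ℕ} (ha : a < h) (hb : b < h)
    (H : ((a : ZMod (2 * h + 1)) + 1) = (b : ZMod (2 * h + 1)) + 1) : a = b := by
  have H1 : (a : ZMod (2 * h + 1)) = b := add_right_cancel H
  rw [ZMod.natCast_eq_natCast_iff'] at H1
  rwa [Nat.mod_eq_of_lt (by omega), Nat.mod_eq_of_lt (by omega)] at H1

theorem Kit_cast_ne {h a b : ℕ} (ha : a < h) (hb : b < h) :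
    -((a : ZMod (2 * h + 1)) + 1) ≠ (b : ZMod (2 * h + 1)) + 1 := by
  intro H
  have H1 : ((a + b + 2 : ℕ) : ZMod (2 * h + 1)) = 0 := by
    push_cast
    linear_combination -H
  rw [ZMod.natCast_eq_zero_iff] at H1
  have := Nat.le_of_dvd (by omega) H1
  omega

/-- the signed residue -/
def Kit_res (i a : ℕ) (s : Prop) [Decidable s] : ZMod (Nat.fermatNumber i) :=
  if s then -((a : ZMod (Nat.fermatNumber i)) + 1) else (a : ZMod (Nat.fermatNumber i)) + 1

theorem Kit_res_inj {i a b : ℕ} {s t : Prop} [Decidable s] [Decidable t] (ha : a < Kit_h i)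
    (hb : b < Kit_h i) (H : Kit_res i a s = Kit_res i b t) : a = b ∧ (s ↔ t) := by
  unfold Kit_res at H
  generalize hq : Nat.fermatNumber i = q at H
  rw [Kit_fermat] at hq
  subst hq
  by_cases hs : s <;> by_cases ht : t <;> simp only [hs, ht, if_true, if_false] at H
  · exact ⟨Kit_cast_inj ha hb (neg_injective H), iff_of_true hs ht⟩
  · exact absurd H (Kit_cast_ne ha hb)
  · exact absurd H.symm (Kit_cast_ne hb ha)
  · exact ⟨Kit_cast_inj ha hb H, iff_of_false hs ht⟩

/-- Part A1a: a dense set of residues with a sign structure. -/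
theorem crt_labels (k : ℕ) :
    ∃ (M N : ℕ) (l : Fin M × Finset (Fin k) → ℕ), 0 < M ∧ N ≤ 2 * (M * 2 ^ k) ∧
      Function.Injective l ∧ (∀ x, l x < N) ∧
      ∀ a b σ τ, l (a, σ) * l (b, τ) ≡ l (a, symmDiff σ τ) * l (b, ∅) [MOD N] := by
  have hq : Pairwise (Function.onFun Nat.Coprime fun i : Fin k => Nat.fermatNumber i) :=
    fun i j hij => Nat.pairwise_coprime_fermatNumber (Fin.val_ne_of_ne hij)
  have hN : (∏ i : Fin k, Nat.fermatNumber i) ≠ 0 :=
    prod_ne_zero_iff.2 fun i _ => by rw [Kit_fermat]; omega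
  have : NeZero (∏ i : Fin k, Nat.fermatNumber i) := ⟨hN⟩
  have hc : Fintype.card (∀ i : Fin k, Fin (Kit_h i)) = ∏ i : Fin k, Kit_h i := by
    simp [Fintype.card_pi]
  obtain ⟨E⟩ : Nonempty (Fin (∏ i : Fin k, Kit_h i) ≃ ∀ i : Fin k, Fin (Kit_h i)) :=
    ⟨(Fintype.equivFinOfCardEq hc).symm⟩
  obtain ⟨C⟩ : Nonempty ((∀ i : Fin k, ZMod (Nat.fermatNumber i)) ≃+*
      ZMod (∏ i : Fin k, Nat.fermatNumber i)) := ⟨(ZMod.prodEquivPi _ hq).symm⟩
  refine ⟨∏ i : Fin k, Kit_h i, ∏ i : Fin k, Nat.fermatNumber i,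
    fun x => (C fun i => Kit_res i (E x.1 i) (i ∈ x.2)).val, ?_, Kit_prod_le k, ?_,
    fun x => ZMod.val_lt _, ?_⟩
  · exact prod_pos fun i _ => Nat.two_pow_pos _
  · rintro ⟨a, σ⟩ ⟨b, τ⟩ H
    have H1 := C.injective (ZMod.val_injective _ H)
    have H2 : ∀ i : Fin k, (E a i : ℕ) = E b i ∧ (i ∈ σ ↔ i ∈ τ) := fun i =>
      Kit_res_inj (E a i).2 (E b i).2 (congrFun H1 i)
    exact Prod.ext (E.injective (funext fun i => Fin.ext (H2 i).1))
      (Finset.ext fun i => (H2 i).2)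
  · intro a b σ τ
    rw [← ZMod.natCast_eq_natCast_iff]
    simp only [Nat.cast_mul, ZMod.natCast_zmod_val, ← map_mul]
    refine congrArg C (funext fun i => ?_)
    simp only [Pi.mul_apply, Kit_res, mem_symmDiff, notMem_empty, if_false]
    by_cases h1 : i ∈ σ <;> by_cases h2 : i ∈ τ <;> simp only [h1, h2, not_true, not_false_iff,
      and_true, and_false, or_false, or_true, if_true, if_false, or_self, and_self] <;> ring

theorem Kit_int_rat (q : ℚ) : IsIntegral ℚ (q : ℂ) := isIntegral_algebraMap (R := ℚ) (x := q)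

theorem Kit_int_nat (r : ℕ) : IsIntegral ℚ ((r : ℂ) + 1) := by
  have := Kit_int_rat ((r : ℚ) + 1)
  push_cast at this
  exact this

/-- Part A1: the one-dimensional kit. -/
theorem exists_kit (k e q₀ : ℕ) :
    ∃ (M nb : ℕ) (l : Fin M × Finset (Fin k) → ℕ)
      (nd : (Fin q₀ × Fin M) × Finset (Fin k) → ℂ) (bf : Fin nb → Fin M × Finset (Fin k) → ℂ),
      0 < M ∧ nb ≤ 6 * q₀ * M * lowCount k e ∧ Function.Injective l ∧
      (∀ x, l x < 2 * (M * 2 ^ k)) ∧ Function.Injective nd ∧ (∀ θ, IsAlgebraic ℚ (nd θ)) ∧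
      (∀ b x, IsAlgebraic ℚ (bf b x)) ∧
      ∀ θ, ∃ κ : Fin nb → ℂ, ∀ x, ¬ (symmDiff θ.2 x.2).card ≤ 8 * e →
        nd θ ^ l x = ∑ b, κ b * bf b x := by
  obtain ⟨M, N, l, hM, hN, hl, hlt, hmod⟩ := crt_labels k
  obtain ⟨I, π, u, v, hI, huv⟩ := cube_nonrigid k e
  have hN0 : 0 < N := lt_of_le_of_lt (Nat.zero_le _) (hlt (⟨0, hM⟩, ∅))
  obtain ⟨ζ, hζ⟩ : ∃ ζ : ℂ, IsPrimitiveRoot ζ N := ⟨_, Complex.isPrimitiveRoot_exp N hN0.ne'⟩
  have hζi : IsIntegral ℚ ζ := (hζ.isIntegral hN0).tower_top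
  have hζn : ‖ζ‖ = 1 := hζ.norm'_eq_one hN0.ne'
  have hc : Fintype.card ((Fin q₀ × Fin M × Fin I) ⊕ (Fin q₀ × Fin M × Fin I)) =
      2 * (q₀ * M * I) := by
    simp only [Fintype.card_sum, Fintype.card_prod, Fintype.card_fin]
    ring
  obtain ⟨E⟩ : Nonempty (Fin (2 * (q₀ * M * I)) ≃
      (Fin q₀ × Fin M × Fin I) ⊕ (Fin q₀ × Fin M × Fin I)) :=
    ⟨(Fintype.equivFinOfCardEq hc).symm⟩
  obtain ⟨φ, hφ⟩ : ∃ φ : Fin M → Fin M → Finset (Fin k) → ℂ,
      φ = fun a b η => ζ ^ (l (a, η) * l (b, ∅)) := ⟨_, rfl⟩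
  obtain ⟨B, hB⟩ : ∃ B : (Fin q₀ × Fin M × Fin I) ⊕ (Fin q₀ × Fin M × Fin I) →
      Fin M × Finset (Fin k) → ℂ, B = Sum.elim
        (fun y x => if x.1 = y.2.1 then (((y.1 : ℕ) : ℂ) + 1) ^ l x * (π y.2.2 x.2 : ℂ) else 0)
        (fun y x => (((y.1 : ℕ) : ℂ) + 1) ^ l x *
          ∑ η, φ y.2.1 x.1 η * (v η y.2.2 x.2 : ℂ)) := ⟨_, rfl⟩
  refine ⟨M, 2 * (q₀ * M * I), l, fun θ => (((θ.1.1 : ℕ) : ℂ) + 1) * ζ ^ l (θ.1.2, θ.2),
    fun b => B (E b), hM, ?_, hl, fun x => lt_of_lt_of_le (hlt x) hN, ?_, ?_, ?_, ?_⟩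
  · calc 2 * (q₀ * M * I) ≤ 2 * (q₀ * M * (3 * lowCount k e)) := by gcongr
      _ = _ := by ring
  · rintro ⟨⟨r, a⟩, σ⟩ ⟨⟨r', a'⟩, σ'⟩ H
    have hn : ∀ s : ℕ, ‖(s : ℂ) + 1‖ = (s : ℝ) + 1 := fun s => by
      have := Complex.norm_natCast (s + 1)
      push_cast at this
      exact this
    have H1 := congrArg norm H
    simp only [norm_mul, norm_pow, hζn, one_pow, mul_one, hn] at H1
    have H2 : r = r' := Fin.ext (by exact_mod_cast add_right_cancel H1)
    subst H2
    have H3 : ((r : ℕ) : ℂ) + 1 ≠ 0 := Nat.cast_add_one_ne_zero _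
    have H4 := hl (hζ.pow_inj (hlt _) (hlt _) (mul_left_cancel₀ H3 H))
    have H5 : a = a' := (Prod.ext_iff.1 H4).1
    have H6 : σ = σ' := (Prod.ext_iff.1 H4).2
    rw [H5, H6]
  · exact fun θ => ((Kit_int_nat _).mul (hζi.pow _)).isAlgebraic
  · intro b x
    refine IsIntegral.isAlgebraic ?_
    change IsIntegral ℚ (B (E b) x)
    rcases E b with y | y
    · simp only [hB, Sum.elim_inl]
      split_ifs
      · exact ((Kit_int_nat _).pow _).mul (Kit_int_rat _)
      · exact isIntegral_zero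
    · simp only [hB, Sum.elim_inr, hφ]
      exact ((Kit_int_nat _).pow _).mul
        (IsIntegral.sum _ fun η _ => (hζi.pow _).mul (Kit_int_rat _))
  · rintro ⟨⟨r, a⟩, σ⟩
    obtain ⟨K, hK⟩ : ∃ K : (Fin q₀ × Fin M × Fin I) ⊕ (Fin q₀ × Fin M × Fin I) → ℂ,
        K = Sum.elim
          (fun y => if y.1 = r then ∑ η, φ a y.2.1 η * (u η y.2.2 σ : ℂ) else 0)
          (fun y => if y.1 = r then if y.2.1 = a then (π y.2.2 σ : ℂ) else 0 else 0) := ⟨_, rfl⟩
    refine ⟨fun b => K (E b), ?_⟩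
    rintro ⟨b, τ⟩ hx
    have h1 : ∀ η, (if symmDiff σ τ = η then (1 : ℂ) else 0) =
        ∑ i, ((u η i σ : ℂ) * π i τ + π i σ * v η i τ) := fun η => by
      have := congrArg (fun q : ℚ => (q : ℂ)) (huv η σ τ (not_le.1 hx))
      simp only [apply_ite (fun q : ℚ => (q : ℂ))] at this
      push_cast at this
      exact this
    have h2 : (ζ ^ l (a, σ)) ^ l (b, τ) = φ a b (symmDiff σ τ) := by
      rw [hφ, ← pow_mul]
      exact pow_eq_pow_of_modEq (hmod a b σ τ) hζ.pow_eq_one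
    have h3 : φ a b (symmDiff σ τ) = ∑ η, φ a b η * (if symmDiff σ τ = η then (1 : ℂ) else 0) := by
      simp
    rw [Equiv.sum_comp E fun b' => K b' * B b' (b, τ), mul_pow, h2, h3, Fintype.sum_sum_type]
    simp only [hK, hB, Sum.elim_inl, Sum.elim_inr, Fintype.sum_prod_type, ite_mul, mul_ite,
      zero_mul, mul_zero, h1]
    simp only [sum_ite_irrel, sum_const_zero, sum_ite_eq, sum_ite_eq', mem_univ, if_true]
    simp only [mul_add, mul_sum, sum_mul, sum_add_distrib]
    congr 1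
    · rw [sum_comm]
      exact sum_congr rfl fun i _ => sum_congr rfl fun η _ => by ring
    · rw [sum_comm]
      exact sum_congr rfl fun i _ => sum_congr rfl fun η _ => by ring

end Pool.Agent.Work.MP_97f157_lc_C
end

-- merged part: Pool.Agent.Work.MP_97f157_lc_C.Algebra
section
set_option autoImplicit false

open Finset

namespace Pool.Agent.Work.MP_97f157_lc_C

/-- Digits below position `n` contribute less than `N ^ n`. -/
theorem algebra_low {Cc : Type} [Fintype Cc] (pos : Cc → ℕ) (hpos : Function.Injective pos)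
    (N : ℕ) (hN : 0 < N) (a : Cc → ℕ) (ha : ∀ c, a c < N) (n : ℕ) :
    ∑ c ∈ univ.filter (fun c => pos c < n), a c * N ^ pos c < N ^ n := by
  classical
  induction n with
  | zero => simp
  | succ n ih =>
    have h1 : univ.filter (fun c => pos c < n + 1) =
        univ.filter (fun c => pos c < n) ∪ univ.filter (fun c => pos c = n) := by
      ext c; simp only [mem_filter, mem_univ, true_and, mem_union]; omega
    have h2 : Disjoint (univ.filter (fun c => pos c < n)) (univ.filter (fun c => pos c = n)) := by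
      rw [disjoint_filter]; intro c _ h; omega
    have h3 : ∑ c ∈ univ.filter (fun c => pos c = n), a c * N ^ pos c + N ^ n ≤ N ^ (n + 1) := by
      by_cases h : ∃ c, pos c = n
      · obtain ⟨c, hc⟩ := h
        have : univ.filter (fun c' => pos c' = n) = {c} := by
          ext c'
          simp only [mem_filter, mem_univ, true_and, mem_singleton]
          exact ⟨fun h' => hpos (h'.trans hc.symm), fun h' => h' ▸ hc⟩
        rw [this, sum_singleton, hc, pow_succ]
        have := Nat.mul_le_mul_right (N ^ n) (Nat.succ_le_of_lt (ha c))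
        nlinarith
      · have : univ.filter (fun c' => pos c' = n) = ∅ := by
          rw [filter_eq_empty_iff]; intro c _ hc; exact h ⟨c, hc⟩
        rw [this, sum_empty, zero_add]
        exact Nat.pow_le_pow_right hN (Nat.le_succ n)
    rw [h1, sum_union h2]
    omega

/-- The top differing digit decides. -/
theorem algebra_lex {Cc : Type} [Fintype Cc] (pos : Cc → ℕ) (hpos : Function.Injective pos)
    (N : ℕ) (hN : 0 < N) (a b : Cc → ℕ) (ha : ∀ c, a c < N) (c₀ : Cc) (h0 : a c₀ < b c₀)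
    (hup : ∀ c, pos c₀ < pos c → a c = b c) :
    ∑ c, a c * N ^ pos c < ∑ c, b c * N ^ pos c := by
  classical
  have split : ∀ d : Cc → ℕ, ∑ c, d c * N ^ pos c =
      ∑ c ∈ univ.filter (fun c => pos c < pos c₀), d c * N ^ pos c + d c₀ * N ^ pos c₀ +
        ∑ c ∈ univ.filter (fun c => pos c₀ < pos c), d c * N ^ pos c := by
    intro d
    rw [sum_filter, sum_filter]
    have : d c₀ * N ^ pos c₀ = ∑ c, if c = c₀ then d c * N ^ pos c else 0 := by simp
    rw [this, ← sum_add_distrib, ← sum_add_distrib]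
    refine sum_congr rfl fun c _ => ?_
    by_cases hc : c = c₀
    · subst hc; simp
    · have : pos c ≠ pos c₀ := fun h => hc (hpos h)
      rcases lt_or_gt_of_ne this with h | h
      · simp [hc, h, h.not_gt]
      · simp [hc, h, h.not_gt]
  have e1 : ∑ c ∈ univ.filter (fun c => pos c₀ < pos c), a c * N ^ pos c =
      ∑ c ∈ univ.filter (fun c => pos c₀ < pos c), b c * N ^ pos c :=
    sum_congr rfl fun c hc => by rw [hup c (mem_filter.1 hc).2]
  have e2 := algebra_low pos hpos N hN a ha (pos c₀)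
  have e3 := Nat.mul_le_mul_right (N ^ pos c₀) (Nat.succ_le_of_lt h0)
  rw [split a, split b, e1]
  rw [Nat.succ_mul] at e3
  omega

/-- Two different words have a top differing position. -/
theorem algebra_top {Cc μ : Type} [Fintype Cc] (pos : Cc → ℕ) (a b : Cc → μ) (h : a ≠ b) :
    ∃ c₀, a c₀ ≠ b c₀ ∧ ∀ c, pos c₀ < pos c → a c = b c := by
  classical
  have hne : (univ.filter fun c => a c ≠ b c).Nonempty := by
    obtain ⟨c, hc⟩ := Function.ne_iff.1 h
    exact ⟨c, by simp [hc]⟩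
  obtain ⟨c₀, h0, hmax⟩ := exists_max_image _ pos hne
  refine ⟨c₀, (mem_filter.1 h0).2, fun c hc => ?_⟩
  by_contra hne'
  exact absurd (hmax c (by simp [hne'])) (not_le.2 hc)

/-- Lagrange interpolation of a power. -/
theorem algebra_lagrange {T : Type} [Fintype T] (nd : T → ℂ) (hnd : Function.Injective nd)
    (w : ℂ) : ∃ lam : T → ℂ, ∀ s, s < Fintype.card T → ∑ t, lam t * nd t ^ s = w ^ s := by
  classical
  refine ⟨fun t => (Lagrange.basis univ nd t).eval w, fun s hs => ?_⟩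
  have h := Lagrange.eq_interpolate (s := univ) (v := nd) (f := (Polynomial.X ^ s : Polynomial ℂ))
    hnd.injOn (by
      rw [Polynomial.degree_X_pow, card_univ]; exact_mod_cast hs)
  have h2 := congrArg (Polynomial.eval w) h
  rw [Lagrange.interpolate_apply, Polynomial.eval_finsetSum] at h2
  simp only [Polynomial.eval_pow, Polynomial.eval_X, Polynomial.eval_mul,
    Polynomial.eval_C] at h2
  rw [h2]
  exact sum_congr rfl fun t _ => mul_comm _ _

section forms

variable {Cc μ Bf : Type} [Fintype Cc] [DecidableEq Cc] [Fintype μ] [DecidableEq μ] [Fintype Bf]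
  {L : ℕ}

open Classical in
/-- The coefficients of a line form. -/
noncomputable def algebraCf (bf : Bf → μ → ℂ) (f : LineForm L Cc μ Bf) (p : Fin L × (Cc → μ)) :
    ℂ :=
  if p.1 = f.1 ∧ ∀ c' : {c' : Cc // c' ≠ f.2.1.1}, p.2 c'.1 = f.2.1.2 c' then
    bf f.2.2 (p.2 f.2.1.1) else 0

/-- The latest point of a line. -/
def algebraTop (x₀ : μ) (f : LineForm L Cc μ Bf) : Fin L × (Cc → μ) :=
  (f.1, fun c' => if h : c' = f.2.1.1 then x₀ else f.2.1.2 ⟨c', h⟩)

/-- Combinations of the line forms whose latest point has the property `Ea`. -/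
def algebraG (bf : Bf → μ → ℂ) (x₀ : μ) (Ea : Fin L × (Cc → μ) → Prop) :
    Submodule ℂ (Fin L × (Cc → μ) → ℂ) where
  carrier := {g | ∃ κ : LineForm L Cc μ Bf → ℂ, (∀ f, κ f ≠ 0 → Ea (algebraTop x₀ f)) ∧
    ∀ p, g p = ∑ f, κ f * algebraCf bf f p}
  zero_mem' := ⟨0, fun f h => absurd rfl h, fun p => by simp⟩
  add_mem' := by
    rintro g g' ⟨κ, h1, h2⟩ ⟨κ', h1', h2'⟩
    refine ⟨κ + κ', fun f hf => ?_, fun p => ?_⟩
    · by_cases h : κ f = 0
      · exact h1' f (by simpa [h] using hf)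
      · exact h1 f h
    · simp only [Pi.add_apply, h2, h2', add_mul, sum_add_distrib]
  smul_mem' := by
    rintro a g ⟨κ, h1, h2⟩
    refine ⟨a • κ, fun f hf => h1 f (fun h => hf (by simp [h])), fun p => ?_⟩
    simp only [Pi.smul_apply, h2, smul_eq_mul, mul_sum, mul_assoc]

theorem algebra_line (bf : Bf → μ → ℂ) (x₀ : μ) (Ea : Fin L × (Cc → μ) → Prop) (c : Cc) (b : Bf)
    (g : Fin L × (Cc → μ) → ℂ) (hg : ∀ p, g (p.1, Function.update p.2 c x₀) = g p)
    (hE : ∀ p, g p ≠ 0 → Ea p) :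
    (fun p => g p * bf b (p.2 c)) ∈ algebraG bf x₀ Ea := by
  classical
  refine ⟨fun f => if f.2.1.1 = c ∧ f.2.2 = b then g (algebraTop x₀ f) else 0, fun f hf => ?_,
    fun p => ?_⟩
  · refine hE _ fun h => hf ?_
    simp [h]
  · let f₀ : LineForm L Cc μ Bf := (p.1, ⟨c, fun c' => p.2 c'.1⟩, b)
    have ht : algebraTop x₀ f₀ = (p.1, Function.update p.2 c x₀) := by
      refine Prod.ext rfl (funext fun c' => ?_)
      by_cases h : c' = c
      · subst h; simp [algebraTop, f₀]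
      · simp [algebraTop, f₀, h]
    rw [sum_eq_single f₀]
    · have h1 : algebraCf bf f₀ p = bf b (p.2 c) := by
        unfold algebraCf; rw [if_pos ⟨rfl, fun _ => rfl⟩]
      have h2 : (if f₀.2.1.1 = c ∧ f₀.2.2 = b then g (algebraTop x₀ f₀) else 0) = g p := by
        rw [if_pos ⟨rfl, rfl⟩, ht, hg]
      rw [h1]
      exact congrArg (· * bf b (p.2 c)) h2.symm
    · rintro ⟨i, ⟨c', o⟩, b'⟩ _ hne
      by_cases h1 : c' = c ∧ b' = b
      · obtain ⟨rfl, rfl⟩ := h1
        unfold algebraCf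
        rw [if_neg (c := p.1 = i ∧ _), mul_zero]
        rintro ⟨rfl, h2⟩
        refine hne ?_
        have : o = fun c'' => p.2 c''.1 := funext fun c'' => (h2 c'').symm
        subst this
        rfl
      · exact mul_eq_zero_of_left (if_neg h1) _
    · intro h; exact absurd (mem_univ _) h

theorem algebra_sat (bf : Bf → μ → ℂ) (x₀ : μ) (Ea : Fin L × (Cc → μ) → Prop)
    (u s : Cc → μ → ℂ) (κ : Cc → Bf → ℂ) (hus : ∀ c x, u c x - s c x = ∑ b, κ c b * bf b x)
    (h : Fin L × (Cc → μ) → ℂ) (hE : ∀ p, h p ≠ 0 → Ea p) (F : Finset Cc)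
    (hF : ∀ c ∈ F, ∀ p, h (p.1, Function.update p.2 c x₀) = h p) :
    (fun p => h p * ∏ c, u c (p.2 c) -
      h p * ∏ c, (if c ∈ F then s c (p.2 c) else u c (p.2 c))) ∈ algebraG bf x₀ Ea := by
  classical
  induction F using Finset.induction_on with
  | empty =>
    have : (fun p : Fin L × (Cc → μ) => h p * ∏ c, u c (p.2 c) -
      h p * ∏ c, (if c ∈ (∅ : Finset Cc) then s c (p.2 c) else u c (p.2 c))) = 0 := by
      funext p; simp
    rw [this]; exact Submodule.zero_mem _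
  | insert c F hc ih =>
    have ih' := ih fun c' hc' => hF c' (mem_insert_of_mem hc')
    let g : Fin L × (Cc → μ) → ℂ := fun p =>
      h p * ∏ c' ∈ univ.erase c, (if c' ∈ F then s c' (p.2 c') else u c' (p.2 c'))
    have hg : ∀ p, g (p.1, Function.update p.2 c x₀) = g p := by
      intro p
      simp only [g]
      rw [hF c (mem_insert_self _ _)]
      congr 1
      refine prod_congr rfl fun c' hc' => ?_
      rw [Function.update_of_ne (ne_of_mem_erase hc')]
    have hgE : ∀ p, g p ≠ 0 → Ea p := fun p hp => hE p (left_ne_zero_of_mul hp)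
    have hm : (∑ b, κ c b • fun p : Fin L × (Cc → μ) => g p * bf b (p.2 c)) ∈
        algebraG bf x₀ Ea :=
      Submodule.sum_mem _ fun b _ => Submodule.smul_mem _ _ (algebra_line bf x₀ Ea c b g hg hgE)
    convert Submodule.add_mem _ ih' hm using 1
    funext p
    have e1 : ∏ c', (if c' ∈ insert c F then s c' (p.2 c') else u c' (p.2 c')) =
        s c (p.2 c) * ∏ c' ∈ univ.erase c, (if c' ∈ F then s c' (p.2 c') else u c' (p.2 c')) := by
      rw [← mul_prod_erase univ _ (mem_univ c), if_pos (mem_insert_self _ _)]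
      congr 1
      refine prod_congr rfl fun c' hc' => ?_
      simp only [mem_insert, ne_of_mem_erase hc', false_or]
    have e2 : ∏ c', (if c' ∈ F then s c' (p.2 c') else u c' (p.2 c')) =
        u c (p.2 c) * ∏ c' ∈ univ.erase c, (if c' ∈ F then s c' (p.2 c') else u c' (p.2 c')) := by
      rw [← mul_prod_erase univ _ (mem_univ c), if_neg hc]
    have e3 : ∑ b, κ c b * (g p * bf b (p.2 c)) = g p * (u c (p.2 c) - s c (p.2 c)) := by
      rw [hus, mul_sum]
      exact sum_congr rfl fun b _ => by ring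
    simp only [Pi.add_apply, Finset.sum_apply, Pi.smul_apply, smul_eq_mul]
    rw [e1, e2, e3]
    simp only [g]
    ring

end forms

/-- Part A2: the tensor design, algebraic half. -/
theorem algebra_half {Cc μ T Bf : Type} [Fintype Cc] [DecidableEq Cc] [Nonempty Cc]
    [Fintype μ] [DecidableEq μ] [Nonempty μ] [Fintype T] [Fintype Bf]
    (L z₁ : ℕ) (hz₁ : 0 < z₁) (l : μ → ℕ) (hl : Function.Injective l) (nd : T → ℂ)
    (hnd : Function.Injective nd) (hz : ∀ x, l x + z₁ ≤ Fintype.card T)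
    (bf : Bf → μ → ℂ) (near : T → μ → Prop)
    (nd_alg : ∀ θ, IsAlgebraic ℚ (nd θ)) (bf_alg : ∀ b x, IsAlgebraic ℚ (bf b x))
    (hdec : ∀ θ, ∃ κ : Bf → ℂ, ∀ x, ¬ near θ x → nd θ ^ l x = ∑ b, κ b * bf b x) :
    ∃ (ex : Fin L × (Cc → μ) → ℕ) (e : (Cc → Fin z₁) → ℕ)
      (U : (Cc → T) → (Cc → Fin z₁) → ℂ) (cf : LineForm L Cc μ Bf → Fin L × (Cc → μ) → ℂ)
      (top : LineForm L Cc μ Bf → Fin L × (Cc → μ)),
      Function.Injective ex ∧ Function.Injective e ∧ (∀ p q, ex p < ex q → q.1 ≤ p.1) ∧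
      (∀ θ z, IsAlgebraic ℚ (U θ z)) ∧ (∀ f p, IsAlgebraic ℚ (cf f p)) ∧
      (∀ f p, cf f p ≠ 0 → ex (top f) ≤ ex p) ∧
      ∀ W : ℝ, ∃ (Λ : (Cc → T) → ℂ) (Y : (Cc → T) → Fin L × (Cc → μ) → ℂ),
        (∀ z p, ∑ θ, Λ θ * U θ z * Y θ p = (W : ℂ) ^ e z * (W : ℂ) ^ ex p) ∧
        ∀ q θ, ∃ κ : LineForm L Cc μ Bf → ℂ, (∀ f, κ f ≠ 0 → ex q < ex (top f)) ∧
          ∀ p, ex q < ex p → Y θ p ≠ ∑ f, κ f * cf f p → NeedOf near q θ p := by
  classical
  obtain ⟨x₀, -, hx₀⟩ := exists_min_image (univ : Finset μ) l univ_nonempty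
  set N := Fintype.card T with hNdef
  set D := Fintype.card Cc with hD
  let pos : Cc → ℕ := fun c => (Fintype.equivFin Cc c : ℕ)
  have hpos : Function.Injective pos := fun a b h =>
    (Fintype.equivFin Cc).injective (Fin.ext h)
  have hposD : ∀ c, pos c < D := fun c => (Fintype.equivFin Cc c).2
  have hlN : ∀ x, l x < N := fun x => by have := hz x; omega
  have hN : 0 < N := by have := hlN x₀; omega
  let val : (Cc → μ) → ℕ := fun a => ∑ c, l (a c) * N ^ pos c
  have hval : ∀ a, val a < N ^ D := by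
    intro a
    have := algebra_low pos hpos N hN (fun c => l (a c)) (fun c => hlN _) D
    rwa [filter_true_of_mem fun c _ => hposD c] at this
  have hlex : ∀ (a b : Cc → μ) (c₀ : Cc), l (a c₀) < l (b c₀) →
      (∀ c, pos c₀ < pos c → a c = b c) → val a < val b := fun a b c₀ h0 hup =>
    algebra_lex pos hpos N hN (fun c => l (a c)) (fun c => l (b c)) (fun c => hlN _) c₀ h0
      fun c hc => by rw [hup c hc]
  let ex : Fin L × (Cc → μ) → ℕ := fun p => (L - 1 - p.1) * N ^ D + val p.2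
  have hgen : ∀ p q : Fin L × (Cc → μ), p.1 < q.1 → ex q < ex p := by
    intro p q h
    have h1 : L - 1 - q.1 + 1 ≤ L - 1 - p.1 := by
      have := q.1.2
      have h' : (p.1 : ℕ) < q.1 := h
      omega
    have h2 := Nat.mul_le_mul_right (N ^ D) h1
    have h3 := hval q.2
    simp only [ex]
    rw [Nat.succ_mul] at h2
    omega
  have hmono : ∀ p q, ex p < ex q → q.1 ≤ p.1 := fun p q h =>
    not_lt.1 fun h' => absurd (hgen p q h') (not_lt.2 h.le)
  have hcmp : ∀ a b : Cc → μ, a ≠ b → ¬ val b < val a →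
      ∃ c₀, l (a c₀) < l (b c₀) ∧ ∀ c, pos c₀ < pos c → a c = b c := by
    intro a b hab hv
    obtain ⟨c₀, h0, hup⟩ := algebra_top pos a b hab
    rcases lt_or_gt_of_ne (fun h => h0 (hl h)) with h | h
    · exact ⟨c₀, h, hup⟩
    · exact absurd (hlex b a c₀ h fun c hc => (hup c hc).symm) hv
  refine ⟨ex, fun z => ∑ c, (z c : ℕ) * N ^ pos c, fun θ z => ∏ c, nd (θ c) ^ (z c : ℕ),
    algebraCf bf, algebraTop x₀, ?_, ?_, hmono, ?_, ?_, ?_, fun W => ?_⟩
  · intro p q h
    have h1 : p.1 = q.1 := le_antisymm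
      (not_lt.1 fun h' => absurd (hgen q p h') (by rw [h]; exact lt_irrefl _))
      (not_lt.1 fun h' => absurd (hgen p q h') (by rw [h]; exact lt_irrefl _))
    have h2 : val p.2 = val q.2 := by
      simp only [ex, h1] at h; omega
    refine Prod.ext h1 ?_
    by_contra hne
    obtain ⟨c₀, h0, hup⟩ := hcmp _ _ hne (by rw [h2]; exact lt_irrefl _)
    exact absurd (hlex _ _ c₀ h0 hup) (by rw [h2]; exact lt_irrefl _)
  · intro a b h
    by_contra hne
    have hd : ∀ (z : Cc → Fin z₁) c, (z c : ℕ) < N := fun z c => by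
      have := hz x₀; have := (z c).2; omega
    obtain ⟨c₀, h0, hup⟩ := algebra_top pos a b hne
    rcases lt_or_gt_of_ne (fun h' => h0 (Fin.ext h')) with h' | h'
    · exact absurd (algebra_lex pos hpos N hN (fun c => a c) (fun c => b c) (hd a) c₀ h'
        fun c hc => by rw [hup c hc]) (not_lt.2 (le_of_eq h.symm))
    · exact absurd (algebra_lex pos hpos N hN (fun c => b c) (fun c => a c) (hd b) c₀ h'
        fun c hc => by rw [hup c hc]) (not_lt.2 (le_of_eq h))
  · intro θ z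
    exact prod_induction _ (IsAlgebraic ℚ) (fun a b ha hb => ha.mul hb) isAlgebraic_one
      fun c _ => (nd_alg _).pow _
  · intro f p
    unfold algebraCf
    split_ifs
    · exact bf_alg _ _
    · exact isAlgebraic_zero
  · intro f p hf
    unfold algebraCf at hf
    split_ifs at hf with h
    · have h1 : (algebraTop x₀ f).1 = p.1 := h.1.symm
      simp only [ex, h1]
      refine Nat.add_le_add_left (sum_le_sum fun c _ => Nat.mul_le_mul_right _ ?_) _
      simp only [algebraTop]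
      split_ifs with hc
      · exact hx₀ _ (mem_univ _)
      · rw [← h.2 ⟨c, hc⟩]
    · exact absurd rfl hf
  · choose lam hlam using fun c : Cc => algebra_lagrange nd hnd ((W : ℂ) ^ N ^ pos c)
    let wg : Fin L → ℂ := fun i => (W : ℂ) ^ ((L - 1 - i) * N ^ D)
    refine ⟨fun θ => ∏ c, lam c (θ c), fun θ p => wg p.1 * ∏ c, nd (θ c) ^ l (p.2 c),
      fun z p => ?_, fun q θ => ?_⟩
    · have e1 : ∀ θ : Cc → T, (∏ c, lam c (θ c)) * (∏ c, nd (θ c) ^ (z c : ℕ)) *
          (wg p.1 * ∏ c, nd (θ c) ^ l (p.2 c)) =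
          wg p.1 * ∏ c, (lam c (θ c) * nd (θ c) ^ ((z c : ℕ) + l (p.2 c))) := by
        intro θ
        simp only [pow_add, prod_mul_distrib]
        ring
      have e2 : ∑ θ : Cc → T, ∏ c, (lam c (θ c) * nd (θ c) ^ ((z c : ℕ) + l (p.2 c))) =
          ∏ c, ∑ t, lam c t * nd t ^ ((z c : ℕ) + l (p.2 c)) := by
        rw [prod_univ_sum, Fintype.piFinset_univ]
      have e3 : ∀ c, ∑ t, lam c t * nd t ^ ((z c : ℕ) + l (p.2 c)) =
          (W : ℂ) ^ ((z c : ℕ) * N ^ pos c) * (W : ℂ) ^ (l (p.2 c) * N ^ pos c) := by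
        intro c
        rw [hlam c _ (by have := hz (p.2 c); have := (z c).2; omega), ← pow_mul, ← pow_add]
        congr 1
        ring
      simp only [e1]
      rw [← mul_sum, e2]
      simp only [e3]
      simp only [prod_mul_distrib, prod_pow_eq_pow_sum, ex, val, wg, pow_add]
      ring
    · choose κ hκ using hdec
      let u : Cc → μ → ℂ := fun c x => nd (θ c) ^ l x
      let s : Cc → μ → ℂ := fun c x => u c x - ∑ b, κ (θ c) b * bf b x
      have hus : ∀ c x, u c x - s c x = ∑ b, κ (θ c) b * bf b x := fun c x => by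
        simp only [s]; ring
      have hs : ∀ c x, s c x ≠ 0 → near (θ c) x := fun c x h => by
        by_contra hn
        exact h (sub_eq_zero.2 (hκ (θ c) x hn))
      let h₀ : Fin L × (Cc → μ) → ℂ := fun p => if p.1 < q.1 then wg p.1 else 0
      let Cl : Cc → Fin L × (Cc → μ) → Prop := fun c₀ p =>
        p.1 = q.1 ∧ l (q.2 c₀) < l (p.2 c₀) ∧ ∀ c, pos c₀ < pos c → q.2 c = p.2 c
      let h₁ : Cc → Fin L × (Cc → μ) → ℂ := fun c₀ p => if Cl c₀ p then wg p.1 else 0
      have m0 := algebra_sat bf x₀ (fun p => ex q < ex p) u s (fun c => κ (θ c)) hus h₀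
        (fun p hp => hgen p q (by by_contra hn; exact hp (if_neg hn))) univ (fun c _ p => rfl)
      have m1 := fun c₀ => algebra_sat bf x₀ (fun p => ex q < ex p) u s (fun c => κ (θ c)) hus
        (h₁ c₀) (fun p hp => by
          have hc : Cl c₀ p := by by_contra hn; exact hp (if_neg hn)
          have := hlex q.2 p.2 c₀ hc.2.1 hc.2.2
          simp only [ex, hc.1]
          omega) (univ.filter fun c => pos c < pos c₀) (fun c hc p => by
          have hc' : pos c < pos c₀ := (mem_filter.1 hc).2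
          have hne : c₀ ≠ c := fun h => by rw [h] at hc'; exact lt_irrefl _ hc'
          have : Cl c₀ (p.1, Function.update p.2 c x₀) ↔ Cl c₀ p := by
            simp only [Cl]
            rw [Function.update_of_ne hne]
            refine and_congr_right fun _ => and_congr_right fun _ => forall_congr' fun c' =>
              imp_congr_right fun h' => ?_
            rw [Function.update_of_ne (fun h => by rw [h] at h'; omega)]
          simp only [h₁, this])
      obtain ⟨K, hK1, hK2⟩ := Submodule.add_mem _ m0 (Submodule.sum_mem _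
        fun c₀ (_ : c₀ ∈ univ) => m1 c₀)
      refine ⟨K, hK1, fun p hp hne => ?_⟩
      by_contra hN'
      refine hne ?_
      rw [← hK2 p]
      have hle : p.1 ≤ q.1 := hmono q p hp
      have r0 : h₀ p * ∏ c, (if c ∈ (univ : Finset Cc) then s c (p.2 c) else u c (p.2 c)) = 0 := by
        by_contra hn
        have := prod_ne_zero_iff.1 (right_ne_zero_of_mul hn)
        refine hN' ⟨hle, Classical.arbitrary Cc, fun c _ => Or.inr (hs c _ ?_)⟩
        simpa using this c (mem_univ c)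
      have r1 : ∀ c₀, h₁ c₀ p * ∏ c, (if c ∈ univ.filter (fun c => pos c < pos c₀) then
          s c (p.2 c) else u c (p.2 c)) = 0 := by
        intro c₀
        by_contra hn
        have h1 := prod_ne_zero_iff.1 (right_ne_zero_of_mul hn)
        have hc : Cl c₀ p := by
          by_contra hn'; exact left_ne_zero_of_mul hn (if_neg hn')
        refine hN' ⟨hle, c₀, fun c hcne => ?_⟩
        rcases lt_or_gt_of_ne (fun h => hcne (hpos h)) with h | h
        · refine Or.inr (hs c _ ?_)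
          simpa [h] using h1 c (mem_univ c)
        · exact Or.inl (hc.2.2 c h).symm
      have r2 : h₀ p + ∑ c₀, h₁ c₀ p = wg p.1 := by
        rcases hle.lt_or_eq with h | h
        · have : ∀ c₀, h₁ c₀ p = 0 := fun c₀ => if_neg fun hc => absurd hc.1 h.ne
          simp only [this, sum_const_zero, add_zero, h₀, if_pos h]
        · have hv : val q.2 < val p.2 := by
            simp only [ex, h] at hp; omega
          obtain ⟨c₀, h0, hup⟩ := hcmp q.2 p.2 (fun h' => by rw [h'] at hv; exact lt_irrefl _ hv)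
            (not_lt.2 hv.le)
          have e0 : h₀ p = 0 := if_neg (by rw [h]; exact lt_irrefl _)
          rw [e0, zero_add, sum_eq_single c₀]
          · exact if_pos ⟨h, h0, hup⟩
          · intro c₁ _ hne'
            refine if_neg fun hc => ?_
            rcases lt_or_gt_of_ne (fun h => hne' (hpos h)) with h' | h'
            · rw [hc.2.2 c₀ h'] at h0; exact lt_irrefl _ h0
            · have := hc.2.1
              rw [hup c₁ h'] at this; exact lt_irrefl _ this
          · intro h'; exact absurd (mem_univ _) h'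
      simp only [Pi.add_apply, Finset.sum_apply, r0, r1, sub_zero]
      rw [← sum_mul, ← add_mul, r2]

end Pool.Agent.Work.MP_97f157_lc_C
end

-- merged part: Pool.Agent.Work.MP_97f157_lc_C.Closure
section
set_option autoImplicit false

open Finset

namespace Pool.Agent.Work.MP_97f157_lc_C

/-- Coordinates: a row and a slot. -/
abbrev Crd (L : ℕ) : Type := Fin (L + 1) × Finset (Fin L)

section Swap

variable {Mb Tb Sg : Type} {L : ℕ}

/-- Exchange the sign of the node at slot `b` with the sign of the label at slot `insert i b`. -/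
def closureSwapFun (i : Fin L) (e : (Crd L → Mb × Sg) × (Crd L → Tb × Sg)) :
    (Crd L → Mb × Sg) × (Crd L → Tb × Sg) :=
  (fun c => if i ∈ c.2 then ((e.1 c).1, (e.2 (c.1, c.2.erase i)).2) else e.1 c,
   fun c => if i ∈ c.2 then e.2 c else ((e.2 c).1, (e.1 (c.1, insert i c.2)).2))

theorem closureSwapFun_invol (i : Fin L) :
    Function.Involutive (closureSwapFun (Mb := Mb) (Tb := Tb) (Sg := Sg) i) := by
  intro e
  refine Prod.ext ?_ ?_
  · funext c
    by_cases h : i ∈ c.2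
    · simp [closureSwapFun, h, Finset.insert_erase h]
    · simp [closureSwapFun, h]
  · funext c
    by_cases h : i ∈ c.2
    · simp [closureSwapFun, h]
    · simp [closureSwapFun, h]

/-- The swap of generation `n` as a permutation, the identity beyond the last generation. -/
def closureSwap (n : ℕ) : Equiv.Perm ((Crd L → Mb × Sg) × (Crd L → Tb × Sg)) :=
  if h : n < L then (closureSwapFun_invol (Mb := Mb) (Tb := Tb) (Sg := Sg) ⟨n, h⟩).toPerm _
  else Equiv.refl _

/-- The schedule. -/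
def closureR : ℕ → Equiv.Perm ((Crd L → Mb × Sg) × (Crd L → Tb × Sg))
  | 0 => Equiv.refl _
  | n + 1 => (closureR n).trans (closureSwap n)

theorem closureR_succ (n : ℕ) (e : (Crd L → Mb × Sg) × (Crd L → Tb × Sg)) :
    closureR (n + 1) e = closureSwap n (closureR n e) := rfl

theorem closureSwap_fst_of_not (n : ℕ) (e : (Crd L → Mb × Sg) × (Crd L → Tb × Sg))
    (c : Crd L) (hc : ∀ x ∈ c.2, (x : ℕ) ≠ n) : (closureSwap n e).1 c = e.1 c := by
  unfold closureSwap
  split_ifs with h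
  · have hn : (⟨n, h⟩ : Fin L) ∉ c.2 := fun hm => hc _ hm rfl
    simp [closureSwapFun, hn]
  · rfl

theorem closureSwap_fst_insert (i : Fin L) (e : (Crd L → Mb × Sg) × (Crd L → Tb × Sg))
    (ρ : Fin (L + 1)) (b : Finset (Fin L)) (hb : i ∉ b) :
    ((closureSwap (i : ℕ) e).1 (ρ, insert i b)).2 = (e.2 (ρ, b)).2 := by
  unfold closureSwap
  rw [dif_pos i.2]
  simp [closureSwapFun, Finset.erase_insert hb]

theorem closureR_fst_stable (e : (Crd L → Mb × Sg) × (Crd L → Tb × Sg)) (i : ℕ) (c : Crd L)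
    (hc : ∀ x ∈ c.2, (x : ℕ) < i) (k : ℕ) (hk : i ≤ k) :
    (closureR k e).1 c = (closureR i e).1 c := by
  induction k, hk using Nat.le_induction with
  | base => rfl
  | succ k hk ih =>
    rw [closureR_succ, closureSwap_fst_of_not k _ c, ih]
    intro x hx
    have := hc x hx
    omega

theorem closureR_fst_insert (e : (Crd L → Mb × Sg) × (Crd L → Tb × Sg)) (i : Fin L)
    (ρ : Fin (L + 1)) (b : Finset (Fin L)) (hb : ∀ x ∈ b, (x : ℕ) < i) (k : ℕ)
    (hk : (i : ℕ) < k) :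
    ((closureR k e).1 (ρ, insert i b)).2 = ((closureR (i : ℕ) e).2 (ρ, b)).2 := by
  have hi : i ∉ b := fun hm => lt_irrefl _ (hb i hm)
  have h1 := closureR_fst_stable e ((i : ℕ) + 1) (ρ, insert i b) (by
    intro x hx
    rcases Finset.mem_insert.1 hx with h | h
    · rw [h]; omega
    · have := hb x h
      omega) k hk
  rw [h1, closureR_succ, closureSwap_fst_insert i _ ρ b hi]

/-- The row `ρ` is good: every early slot of `l'` is close to some early slot of `l`. -/
def closureGood (d : Sg → Sg → ℕ) (s : ℕ) (i' k : ℕ) (l' l : Crd L → Mb × Sg)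
    (ρ : Fin (L + 1)) : Prop :=
  ∀ b : Finset (Fin L), (∀ x ∈ b, (x : ℕ) < i') →
    ∃ b' : Finset (Fin L), (∀ x ∈ b', (x : ℕ) < k) ∧ d (l' (ρ, b)).2 (l (ρ, b')).2 ≤ s

theorem closureGood_mono {d : Sg → Sg → ℕ} {s s' i' k : ℕ} {l' l : Crd L → Mb × Sg}
    {ρ : Fin (L + 1)} (h : closureGood d s i' k l' l ρ) (hs : s ≤ s') :
    closureGood d s' i' k l' l ρ := by
  intro b hb
  obtain ⟨b', h1, h2⟩ := h b hb
  exact ⟨b', h1, h2.trans hs⟩

theorem closureGood_trans {d : Sg → Sg → ℕ} (d_tri : ∀ x y z, d x z ≤ d x y + d y z)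
    {s s' i' k m : ℕ} {l' l l'' : Crd L → Mb × Sg} {ρ : Fin (L + 1)}
    (h : closureGood d s i' k l' l ρ) (h' : closureGood d s' k m l l'' ρ) :
    closureGood d (s + s') i' m l' l'' ρ := by
  intro b hb
  obtain ⟨b', h1, h2⟩ := h b hb
  obtain ⟨b'', h3, h4⟩ := h' b' h1
  exact ⟨b'', h3, (d_tri _ _ _).trans (Nat.add_le_add h2 h4)⟩

/-- One step: what a payer must hold is good in all rows but one for each later user of the
channel. -/
theorem closure_step {d : Sg → Sg → ℕ} (d_self : ∀ x, d x x = 0) (d_comm : ∀ x y, d x y = d y x)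
    {r : ℕ} (q : Fin L × (Crd L → Mb × Sg)) (θ' : Crd L → Tb × Sg)
    (p' : Fin L × (Crd L → Mb × Sg))
    (hN : NeedOf (fun (a : Tb × Sg) (x : Mb × Sg) => d a.2 x.2 ≤ r) q θ' p') :
    ∃ ρ₀ : Fin (L + 1), ∀ k : ℕ, (q.1 : ℕ) < k → ∀ ρ, ρ ≠ ρ₀ →
      closureGood d r p'.1 k p'.2 (closureR k ((closureR (q.1 : ℕ)).symm (q.2, θ'))).1 ρ := by
  obtain ⟨hle, c₀, hc⟩ := hN
  have hle' : (p'.1 : ℕ) ≤ (q.1 : ℕ) := hle
  refine ⟨c₀.1, fun k hk ρ hρ b hb => ?_⟩
  have hb' : ∀ x ∈ b, (x : ℕ) < (q.1 : ℕ) := fun x hx => lt_of_lt_of_le (hb x hx) hle'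
  have hne : ((ρ, b) : Crd L) ≠ c₀ := fun h => hρ (by rw [← h])
  rcases hc (ρ, b) hne with h | h
  · refine ⟨b, fun x hx => (hb' x hx).trans hk, ?_⟩
    rw [closureR_fst_stable _ (q.1 : ℕ) (ρ, b) hb' k hk.le, Equiv.apply_symm_apply, h, d_self]
    exact Nat.zero_le _
  · refine ⟨insert q.1 b, ?_, ?_⟩
    · intro x hx
      rcases Finset.mem_insert.1 hx with h' | h'
      · rw [h']; exact hk
      · exact (hb' x h').trans hk
    · rw [closureR_fst_insert _ q.1 ρ b hb' k hk, Equiv.apply_symm_apply, d_comm]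
      exact h

open Classical in
/-- The bad rows. -/
noncomputable def closureBad (d : Sg → Sg → ℕ) (r : ℕ) (i' k : ℕ) (l' l : Crd L → Mb × Sg) :
    Finset (Fin (L + 1)) :=
  Finset.univ.filter fun ρ => ¬ closureGood d ((k - i') * r) i' k l' l ρ

theorem mem_closureBad {d : Sg → Sg → ℕ} {r i' k : ℕ} {l' l : Crd L → Mb × Sg}
    {ρ : Fin (L + 1)} :
    ρ ∈ closureBad d r i' k l' l ↔ ¬ closureGood d ((k - i') * r) i' k l' l ρ := by
  simp [closureBad]

/-- The relation that defines the holdings of a factor. -/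
def closureRel (d : Sg → Sg → ℕ) (r : ℕ) (i' k : ℕ) (l' l : Crd L → Mb × Sg) : Prop :=
  (i' = k ∧ l' = l) ∨ (i' < k ∧ (closureBad d r i' k l' l).card ≤ k - i')

theorem closureRel_of_step {d : Sg → Sg → ℕ} (d_tri : ∀ x y z, d x z ≤ d x y + d y z)
    {r i' k m : ℕ} {l' l l'' : Crd L → Mb × Sg} (hik : i' < k) (ρ₀ : Fin (L + 1))
    (h : ∀ ρ, ρ ≠ ρ₀ → closureGood d r i' k l' l ρ) (h' : closureRel d r k m l l'') :
    closureRel d r i' m l' l'' := by
  rcases h' with ⟨h1, h2⟩ | ⟨h1, h2⟩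
  · subst h1
    subst h2
    refine Or.inr ⟨hik, ?_⟩
    have hsub : closureBad d r i' k l' l ⊆ {ρ₀} := by
      intro ρ hρ
      rw [mem_closureBad] at hρ
      by_contra hne
      rw [Finset.mem_singleton] at hne
      refine hρ (closureGood_mono (h ρ hne) ?_)
      exact Nat.le_mul_of_pos_left r (by omega)
    have := Finset.card_le_card hsub
    rw [Finset.card_singleton] at this
    omega
  · refine Or.inr ⟨hik.trans h1, ?_⟩
    have hsub : closureBad d r i' m l' l'' ⊆ insert ρ₀ (closureBad d r k m l l'') := by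
      intro ρ hρ
      rw [mem_closureBad] at hρ
      by_contra hne
      rw [Finset.mem_insert, not_or, mem_closureBad, not_not] at hne
      refine hρ (closureGood_mono (closureGood_trans d_tri (h ρ hne.1) hne.2) ?_)
      calc r + (m - k) * r = (m - k + 1) * r := by ring
        _ ≤ (m - i') * r := Nat.mul_le_mul_right r (by omega)
    have h3 := Finset.card_le_card hsub
    have h4 := Finset.card_insert_le ρ₀ (closureBad d r k m l l'')
    omega

theorem closureRel_near {d : Sg → Sg → ℕ} {r i' k : ℕ} {l' l : Crd L → Mb × Sg} (hk : k ≤ L)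
    (h : (closureBad d r i' k l' l).card ≤ k - i') :
    ∃ c : Crd L, d (l' (c.1, ∅)).2 (l c).2 ≤ L * r := by
  have hlt : (closureBad d r i' k l' l).card < (Finset.univ : Finset (Fin (L + 1))).card := by
    rw [Finset.card_univ, Fintype.card_fin]
    omega
  obtain ⟨ρ, -, hρ⟩ := Finset.exists_mem_notMem_of_card_lt_card hlt
  rw [mem_closureBad, not_not] at hρ
  obtain ⟨b', -, hb'⟩ := hρ ∅ (by simp)
  exact ⟨(ρ, b'), hb'.trans (Nat.mul_le_mul_right r (by omega))⟩

theorem closure_fibre [Fintype Mb] [Fintype Sg] (c : Crd L) (B : Finset Sg)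
    (S : Finset (Crd L → Mb × Sg)) (hS : ∀ l' ∈ S, (l' c).2 ∈ B) :
    S.card * Fintype.card Sg ≤
      (Fintype.card Mb * Fintype.card Sg) ^ ((L + 1) * 2 ^ L) * B.card := by
  classical
  have hcard : (Finset.univ : Finset (Crd L → Mb × Sg)).card =
      (Fintype.card Mb * Fintype.card Sg) ^ ((L + 1) * 2 ^ L) := by
    rw [Finset.card_univ, Fintype.card_fun, Fintype.card_prod, Fintype.card_prod,
      Fintype.card_fin, Fintype.card_finset, Fintype.card_fin]
  rw [← hcard, ← Finset.card_univ (α := Sg), ← Finset.card_product, ← Finset.card_product]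
  refine Finset.card_le_card_of_injOn
    (fun x : (Crd L → Mb × Sg) × Sg => (Function.update x.1 c ((x.1 c).1, x.2), (x.1 c).2)) ?_ ?_
  · intro x hx
    have hx' := Finset.mem_product.1 (Finset.mem_coe.1 hx)
    exact Finset.mem_coe.2 (Finset.mem_product.2 ⟨Finset.mem_univ _, hS _ hx'.1⟩)
  · intro x _ y _ hxy
    have h1 : Function.update x.1 c ((x.1 c).1, x.2) = Function.update y.1 c ((y.1 c).1, y.2) :=
      congrArg Prod.fst hxy
    have h2 : (x.1 c).2 = (y.1 c).2 := (Prod.mk.inj hxy).2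
    have h3 := congrFun h1 c
    rw [Function.update_self, Function.update_self] at h3
    have h4 : (x.1 c).1 = (y.1 c).1 := (Prod.mk.inj h3).1
    have h5 : x.2 = y.2 := (Prod.mk.inj h3).2
    refine Prod.ext ?_ h5
    funext c'
    by_cases hc : c' = c
    · rw [hc]
      exact Prod.ext h4 h2
    · have h6 := congrFun h1 c'
      rwa [Function.update_of_ne hc, Function.update_of_ne hc] at h6

end Swap

/-- Part B: the swap schedule, closure half. -/
theorem closure_half {Mb Tb Sg : Type} [Fintype Mb] [Fintype Sg] (L r A : ℕ)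
    (d : Sg → Sg → ℕ) (d_self : ∀ x, d x x = 0) (d_comm : ∀ x y, d x y = d y x)
    (d_tri : ∀ x y z, d x z ≤ d x y + d y z)
    (hball : ∀ y, (Finset.univ.filter fun x => d x y ≤ L * r).card ≤ A) :
    ∃ (home : Fin L × (Crd L → Mb × Sg) → Fin (L + 1) × (Crd L → Mb × Sg))
      (X : Fin (L + 1) × (Crd L → Mb × Sg) → Finset (Fin L × (Crd L → Mb × Sg)))
      (ch : Fin L × (Crd L → Mb × Sg) → (Crd L → Tb × Sg) →
        (Crd L → Mb × Sg) × (Crd L → Tb × Sg))
      (ab : (Crd L → Mb × Sg) × (Crd L → Tb × Sg) → Fin (L + 1) × (Crd L → Mb × Sg)),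
      (∀ p, p ∈ X (home p)) ∧ (∀ p, Function.Injective (ch p)) ∧
      (∀ j p q θ θ', p ∈ X j → q ≠ p → q.1 ≤ p.1 → ch q θ' = ch p θ →
        ∀ p', NeedOf (fun (a : Tb × Sg) (x : Mb × Sg) => d a.2 x.2 ≤ r) q θ' p' → p' ∈ X j) ∧
      (∀ q θ' p', NeedOf (fun (a : Tb × Sg) (x : Mb × Sg) => d a.2 x.2 ≤ r) q θ' p' →
        p' ∈ X (ab (ch q θ'))) ∧
      ∀ j, (X j).card * Fintype.card Sg ≤ Fintype.card Sg +
        L * (Fintype.card Mb * Fintype.card Sg) ^ ((L + 1) * 2 ^ L) * ((L + 1) * 2 ^ L * A) := by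
  classical
  refine ⟨fun p => (p.1.castSucc, p.2),
    fun j => Finset.univ.filter fun p => closureRel d r (p.1 : ℕ) (j.1 : ℕ) p.2 j.2,
    fun p θ => (closureR (p.1 : ℕ)).symm (p.2, θ),
    fun e => (Fin.last L, (closureR L e).1), ?_, ?_, ?_, ?_, ?_⟩
  · intro p
    exact Finset.mem_filter.2 ⟨Finset.mem_univ _, Or.inl ⟨rfl, rfl⟩⟩
  · intro p θ θ' h
    exact congrArg Prod.snd ((closureR (p.1 : ℕ)).symm.injective h)
  · intro j p q θ θ' hp hne hle hch p' hN
    have hch' : (closureR (q.1 : ℕ)).symm (q.2, θ') = (closureR (p.1 : ℕ)).symm (p.2, θ) := hch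
    have hlt : (q.1 : ℕ) < (p.1 : ℕ) := by
      rcases lt_or_eq_of_le hle with h | h
      · exact h
      · exfalso
        rw [h] at hch'
        exact hne (Prod.ext h (congrArg Prod.fst ((closureR (p.1 : ℕ)).symm.injective hch')))
    obtain ⟨ρ₀, hρ⟩ := closure_step d_self d_comm q θ' p' hN
    have h1 := hρ (p.1 : ℕ) hlt
    rw [hch', Equiv.apply_symm_apply] at h1
    have hle' : (p'.1 : ℕ) ≤ (q.1 : ℕ) := hN.1
    exact Finset.mem_filter.2 ⟨Finset.mem_univ _,
      closureRel_of_step d_tri (lt_of_le_of_lt hle' hlt) ρ₀ h1 (Finset.mem_filter.1 hp).2⟩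
  · intro q θ' p' hN
    obtain ⟨ρ₀, hρ⟩ := closure_step d_self d_comm q θ' p' hN
    exact Finset.mem_filter.2 ⟨Finset.mem_univ _,
      closureRel_of_step d_tri p'.1.2 ρ₀ (hρ L q.1.2) (Or.inl ⟨rfl, rfl⟩)⟩
  · intro j
    set N := (Fintype.card Mb * Fintype.card Sg) ^ ((L + 1) * 2 ^ L) with hN
    let S : Crd L → Finset (Crd L → Mb × Sg) := fun c =>
      Finset.univ.filter fun l' => d (l' (c.1, ∅)).2 (j.2 c).2 ≤ L * r
    let T : Finset (Fin L × (Crd L → Mb × Sg)) :=
      Finset.univ.filter fun p => (p.1 : ℕ) = (j.1 : ℕ) ∧ p.2 = j.2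
    have hT : T.card ≤ 1 := by
      refine Finset.card_le_one.2 fun a ha b hb => ?_
      have ha' := (Finset.mem_filter.1 ha).2
      have hb' := (Finset.mem_filter.1 hb).2
      exact Prod.ext (Fin.ext (ha'.1.trans hb'.1.symm)) (ha'.2.trans hb'.2.symm)
    have hS : ∀ c, (S c).card * Fintype.card Sg ≤ N * A := by
      intro c
      refine (closure_fibre (c.1, ∅) (Finset.univ.filter fun x => d x (j.2 c).2 ≤ L * r) (S c)
        ?_).trans (Nat.mul_le_mul_left _ (hball _))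
      intro l' hl'
      exact Finset.mem_filter.2 ⟨Finset.mem_univ _, (Finset.mem_filter.1 hl').2⟩
    have hsub : (Finset.univ.filter fun p : Fin L × (Crd L → Mb × Sg) =>
        closureRel d r (p.1 : ℕ) (j.1 : ℕ) p.2 j.2) ⊆
        T ∪ (Finset.univ : Finset (Fin L)) ×ˢ (Finset.univ.biUnion S) := by
      intro p hp
      rcases (Finset.mem_filter.1 hp).2 with h | h
      · exact Finset.mem_union_left _ (Finset.mem_filter.2 ⟨Finset.mem_univ _, h⟩)
      · obtain ⟨c, hc⟩ := closureRel_near (Nat.lt_succ_iff.1 j.1.2) h.2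
        exact Finset.mem_union_right _ (Finset.mem_product.2 ⟨Finset.mem_univ _,
          Finset.mem_biUnion.2 ⟨c, Finset.mem_univ _,
            Finset.mem_filter.2 ⟨Finset.mem_univ _, hc⟩⟩⟩)
    have hU : (Finset.univ.biUnion S).card * Fintype.card Sg ≤ (L + 1) * 2 ^ L * (N * A) := by
      calc (Finset.univ.biUnion S).card * Fintype.card Sg
          ≤ (∑ c, (S c).card) * Fintype.card Sg :=
            Nat.mul_le_mul_right _ Finset.card_biUnion_le
        _ = ∑ c, (S c).card * Fintype.card Sg := Finset.sum_mul _ _ _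
        _ ≤ ∑ _c : Crd L, N * A := Finset.sum_le_sum fun c _ => hS c
        _ = (L + 1) * 2 ^ L * (N * A) := by
            rw [Finset.sum_const, Finset.card_univ, Fintype.card_prod, Fintype.card_fin,
              Fintype.card_finset, Fintype.card_fin, smul_eq_mul]
    have h1 := (Finset.card_le_card hsub).trans (Finset.card_union_le _ _)
    rw [Finset.card_product, Finset.card_univ, Fintype.card_fin] at h1
    calc _ ≤ (1 + L * (Finset.univ.biUnion S).card) * Fintype.card Sg :=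
          Nat.mul_le_mul_right _ (h1.trans (Nat.add_le_add_right hT _))
      _ = Fintype.card Sg + L * ((Finset.univ.biUnion S).card * Fintype.card Sg) := by ring
      _ ≤ Fintype.card Sg + L * ((L + 1) * 2 ^ L * (N * A)) :=
          Nat.add_le_add_left (Nat.mul_le_mul_left _ hU) _
      _ = _ := by ring

end Pool.Agent.Work.MP_97f157_lc_C
end

-- merged part: Pool.Agent.Work.MP_97f157_lc_C.Final
section
set_option autoImplicit false

open Finset

namespace Pool.Agent.Work.MP_97f157_lc_C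

theorem final_pow (D n : ℕ) (hD : 0 < D) : ((4 * D + 2) * n) ^ D ≤ 2 * (4 * D * n) ^ D := by
  have h : ((4 * D + 2 : ℕ) : ℝ) ^ D ≤ 2 * ((4 * D : ℕ) : ℝ) ^ D := by
    have hq : (0 : ℝ) < ((4 * D + 2 : ℕ) : ℝ) := by positivity
    have h1 : (-2 : ℝ) ≤ -(2 / ((4 * D + 2 : ℕ) : ℝ)) := by
      have : 2 / ((4 * D + 2 : ℕ) : ℝ) ≤ 2 := by
        rw [div_le_iff₀ hq]; push_cast; nlinarith [Nat.cast_nonneg (α := ℝ) D]
      linarith
    have h2 := one_add_mul_le_pow h1 D
    have h3 : (1 : ℝ) + -(2 / ((4 * D + 2 : ℕ) : ℝ)) =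
        ((4 * D : ℕ) : ℝ) / ((4 * D + 2 : ℕ) : ℝ) := by
      field_simp; push_cast; ring
    have h4 : (1 : ℝ) / 2 ≤ 1 + D * -(2 / ((4 * D + 2 : ℕ) : ℝ)) := by
      have : (D : ℝ) * (2 / ((4 * D + 2 : ℕ) : ℝ)) ≤ 1 / 2 := by
        rw [← mul_div_assoc, div_le_iff₀ hq]; push_cast; linarith
      linarith
    rw [h3, div_pow] at h2
    have h5 := h4.trans h2
    rw [le_div_iff₀ (pow_pos hq D)] at h5
    linarith
  have h' : (4 * D + 2) ^ D ≤ 2 * (4 * D) ^ D := by exact_mod_cast h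
  rw [mul_pow, mul_pow (4 * D) n, ← mul_assoc]
  exact Nat.mul_le_mul_right _ h'

theorem final_count (C L N S D q A nΦ s nZ nΘ : ℕ) (hL : L = 8 * C + 8) (hN : 0 < N)
    (hS : 0 < S) (hZ : 0 < nZ) (h1 : nΘ ≤ 2 * nZ) (h2 : nΦ * S ≤ L * N * (6 * D * q * A))
    (h3 : s * S ≤ S + L * N * (D * A)) (h4 : 4 * (C * D * (12 * q + 1)) * A ≤ S) :
    C * (2 * (N * nΘ + nΦ * nZ) + nZ * s) < nZ * (L * N) := by
  have h5 : 4 * C * (2 * nΦ + s) * S ≤ (L * N + 4 * C) * S := by
    have e1 : 4 * C * (2 * nΦ + s) * S = 4 * C * (2 * (nΦ * S) + s * S) := by ring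
    have e2 : 4 * C * (2 * (L * N * (6 * D * q * A)) + (S + L * N * (D * A))) =
        L * N * (4 * (C * D * (12 * q + 1)) * A) + 4 * C * S := by ring
    calc 4 * C * (2 * nΦ + s) * S = 4 * C * (2 * (nΦ * S) + s * S) := e1
      _ ≤ 4 * C * (2 * (L * N * (6 * D * q * A)) + (S + L * N * (D * A))) := by gcongr
      _ = L * N * (4 * (C * D * (12 * q + 1)) * A) + 4 * C * S := e2
      _ ≤ L * N * S + 4 * C * S := by gcongr
      _ = (L * N + 4 * C) * S := by ring
  have h6 : 4 * C * (2 * nΦ + s) ≤ L * N + 4 * C := Nat.le_of_mul_le_mul_right h5 hS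
  have h7 : C * (4 * N + (2 * nΦ + s)) < L * N := by
    have : C ≤ C * N := Nat.le_mul_of_pos_right _ hN
    subst hL
    nlinarith
  calc C * (2 * (N * nΘ + nΦ * nZ) + nZ * s)
      ≤ C * (2 * (N * (2 * nZ) + nΦ * nZ) + nZ * s) := by gcongr
    _ = nZ * (C * (4 * N + (2 * nΦ + s))) := by ring
    _ < nZ * (L * N) := Nat.mul_lt_mul_of_pos_left h7 hZ

theorem card_lineForm (L : ℕ) (Cc μ Bf : Type) [Fintype Cc] [DecidableEq Cc] [Fintype μ]
    [Fintype Bf] :
    Fintype.card (LineForm L Cc μ Bf) * Fintype.card μ =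
      L * (Fintype.card Cc * Fintype.card μ ^ Fintype.card Cc) * Fintype.card Bf := by
  have h : ∀ c : Cc, Fintype.card ({c' : Cc // c' ≠ c} → μ) * Fintype.card μ =
      Fintype.card μ ^ Fintype.card Cc := by
    intro c
    have hc : Fintype.card {c' : Cc // c' ≠ c} + 1 = Fintype.card Cc := by
      have h1 : Fintype.card {c' : Cc // c' ≠ c} = Fintype.card Cc - 1 := by
        simp [Fintype.card_subtype_compl]
      have h2 : 0 < Fintype.card Cc := Fintype.card_pos_iff.2 ⟨c⟩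
      omega
    rw [Fintype.card_fun, ← pow_succ, hc]
  simp only [LineForm, Fintype.card_prod, Fintype.card_fin, Fintype.card_sigma]
  have h2 : (∑ c : Cc, Fintype.card ({c' : Cc // c' ≠ c} → μ)) * Fintype.card μ =
      Fintype.card Cc * Fintype.card μ ^ Fintype.card Cc := by
    rw [Finset.sum_mul, Finset.sum_congr rfl fun c _ => h c]
    simp
  rw [← h2]
  ring

theorem exists_roots (C : ℕ) : ∃ a b T m K : ℕ, C * (a + b) < T ∧
    ∀ w : ℕ, 0 < w → HasRoots ((K * w + 1) ^ a) m (w ^ b) ((w ^ T - 1) / 2) := by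
  classical
  obtain ⟨L, hL⟩ : ∃ L, L = 8 * C + 8 := ⟨_, rfl⟩
  obtain ⟨D, hD⟩ : ∃ D, D = (L + 1) * 2 ^ L := ⟨_, rfl⟩
  have hD0 : 0 < D := by rw [hD]; positivity
  obtain ⟨e, he⟩ : ∃ e, e = C * D * (12 * (4 * D + 2) + 1) * (16 * L + 2) + 1 := ⟨_, rfl⟩
  obtain ⟨k, hk⟩ : ∃ k, k = (16 * L + 2) * e := ⟨_, rfl⟩
  obtain ⟨M, nb, l, nd, bf, hM, hnb, hl, hlt, hnd, nd_alg, bf_alg, hdec⟩ :=
    exists_kit k e (4 * D + 2)
  haveI : Nonempty (Fin M) := ⟨⟨0, hM⟩⟩
  obtain ⟨n, hn⟩ : ∃ n, n = M * 2 ^ k := ⟨_, rfl⟩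
  have hn0 : 0 < n := by rw [hn]; positivity
  have hcS : Fintype.card (Finset (Fin k)) = 2 ^ k := by simp
  have hcμ : Fintype.card (Fin M × Finset (Fin k)) = n := by simp [hn]
  have hcT : Fintype.card ((Fin (4 * D + 2) × Fin M) × Finset (Fin k)) = (4 * D + 2) * n := by
    simp [hn, mul_assoc]
  have hcC : Fintype.card (Crd L) = D := by simp [hD]
  obtain ⟨ex, ez, U, cf, top, ex_inj, ez_inj, hgen, U_alg, cf_alg, top_le, interp⟩ :=
    algebra_half (Cc := Crd L) L (4 * D * n) (by positivity) l hl nd hnd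
      (fun x => by
        have := hlt x
        rw [hcT, ← hn] at *
        nlinarith) bf
      (fun (a : (Fin (4 * D + 2) × Fin M) × Finset (Fin k)) (x : Fin M × Finset (Fin k)) =>
        (symmDiff a.2 x.2).card ≤ 8 * e) nd_alg bf_alg hdec
  obtain ⟨home, X, ch, ab, home_mem, ch_inj, clos1, clos2, hX⟩ :=
    closure_half (Mb := Fin M) (Tb := Fin (4 * D + 2) × Fin M) (Sg := Finset (Fin k)) L (8 * e)
      (lowCount k e) (fun x y => (symmDiff x y).card) (fun x => by simp)
      (fun x y => by rw [symmDiff_comm])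
      (fun x y z => (Finset.card_le_card (symmDiff_triangle x y z)).trans
        (Finset.card_union_le _ _))
      (fun y => ball_le k e (L * (8 * e)) (by rw [hk]; apply le_of_eq; ring) y)
  let 𝒟 : Design (Fin L × (Crd L → Fin M × Finset (Fin k)))
      (Fin (L + 1) × (Crd L → Fin M × Finset (Fin k)))
      (Crd L → (Fin (4 * D + 2) × Fin M) × Finset (Fin k)) (Crd L → Fin (4 * D * n))
      ((Crd L → Fin M × Finset (Fin k)) × (Crd L → (Fin (4 * D + 2) × Fin M) × Finset (Fin k)))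
      (LineForm L (Crd L) (Fin M × Finset (Fin k)) (Fin nb)) :=
    { ex := ex, ex_inj := ex_inj, e := ez, e_inj := ez_inj, home := home, X := X,
      home_mem := home_mem, ch := ch, ch_inj := ch_inj, ab := ab,
      Need := NeedOf (fun (a : (Fin (4 * D + 2) × Fin M) × Finset (Fin k))
        (x : Fin M × Finset (Fin k)) => (symmDiff a.2 x.2).card ≤ 8 * e),
      clos1 := fun j p q θ θ' hp hpq hch =>
        clos1 j p q θ θ' hp (fun h => by rw [h] at hpq; exact lt_irrefl _ hpq) (hgen p q hpq) hch,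
      clos2 := clos2, U := U, cf := cf, U_alg := U_alg, cf_alg := cf_alg, top := top,
      top_le := top_le, interp := interp }
  have hS : 0 < 2 ^ k := by positivity
  obtain ⟨s, hs⟩ : ∃ s, s = (2 ^ k + L * n ^ D * (D * lowCount k e)) / 2 ^ k := ⟨_, rfl⟩
  have hXs : ∀ j, (𝒟.X j).card ≤ s := by
    intro j
    have := hX j
    rw [hcS, Fintype.card_fin, ← hn, ← hD] at this
    rw [hs, Nat.le_div_iff_mul_le hS]
    exact this
  obtain ⟨ρ, K, hρ, hroots⟩ := design_roots 𝒟 s hXs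
  refine ⟨_, _, _, _, K, ?_, hroots⟩
  rw [← mul_add, mul_left_comm]
  refine Nat.mul_lt_mul_of_pos_left ?_ hρ
  have hΦ := card_lineForm L (Crd L) (Fin M × Finset (Fin k)) (Fin nb)
  rw [hcμ, hcC, Fintype.card_fin] at hΦ
  have hA := lowCount_le k e
  generalize Fintype.card (LineForm L (Crd L) (Fin M × Finset (Fin k)) (Fin nb)) = nΦ at hΦ ⊢
  simp only [Fintype.card_prod (Fin L), Fintype.card_prod (Crd L → Fin M × Finset (Fin k)),
    Fintype.card_fun, hcμ, hcT, hcC, Fintype.card_fin]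
  refine final_count C L (n ^ D) (2 ^ k) D (4 * D + 2) (lowCount k e) nΦ s _ _ hL
    (by positivity) hS (by positivity) (final_pow D n hD0) ?_ ?_ ?_
  · refine Nat.le_of_mul_le_mul_right ?_ hM
    calc nΦ * 2 ^ k * M = nΦ * n := by rw [hn]; ring
      _ = L * (D * n ^ D) * nb := hΦ
      _ ≤ L * (D * n ^ D) * (6 * (4 * D + 2) * M * lowCount k e) := by gcongr
      _ = _ := by ring
  · rw [hs]; exact Nat.div_mul_le_self _ _
  · have he0 : 0 < e := by rw [he]; positivity
    have h1 : 4 * e * lowCount k e ≤ (16 * L + 2) * 2 ^ k := by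
      refine Nat.le_of_mul_le_mul_right ?_ he0
      calc 4 * e * lowCount k e * e = 4 * e ^ 2 * lowCount k e := by ring
        _ ≤ k * 2 ^ k := hA
        _ = (16 * L + 2) * e * 2 ^ k := by rw [← hk]
        _ = _ := by ring
    have h2 : C * D * (12 * (4 * D + 2) + 1) * (16 * L + 2) ≤ e := by rw [he]; omega
    refine Nat.le_of_mul_le_mul_right ?_ (show 0 < 16 * L + 2 by positivity)
    calc 4 * (C * D * (12 * (4 * D + 2) + 1)) * lowCount k e * (16 * L + 2)
        = 4 * (C * D * (12 * (4 * D + 2) + 1) * (16 * L + 2)) * lowCount k e := by ring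
      _ ≤ 4 * e * lowCount k e := by gcongr
      _ ≤ (16 * L + 2) * 2 ^ k := h1
      _ = _ := by ring

theorem not_tau :
    ¬ (∃ c : ℕ, ∀ (k m t : ℕ) (F : Fin k → Fin m → Polynomial ℝ),
      (∀ i j, (F i j).support.card ≤ t) →
      (∑ i, ∏ j, F i j) ≠ 0 →
      (∑ i, ∏ j, F i j).roots.toFinset.card ≤ (k * m * t + 2) ^ c) :=
  not_tau_of exists_roots

end Pool.Agent.Work.MP_97f157_lc_C
end
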